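import Mathlib

/-!
# Averages of periodic functions along a progression (project RW, MP_0ec542_nt)
-/

open Finset

namespace Pool.Agent.RW

/-- the sum over one period of a function of `n0 + M t` modulo `q` -/
theorem sum_period {q : ℕ} [NeZero q] (H : ZMod q → ℝ) {M : ℕ} (hM : Nat.Coprime M q)
    (n0 : ℤ) : ∑ t ∈ range q, H ((n0 + M * (t : ℕ) : ℤ) : ZMod q) = ∑ y : ZMod q, H y := by
  have h1 : ∀ t ∈ range q, H ((n0 + M * (t : ℕ) : ℤ) : ZMod q) =
      (fun y : ZMod q => H ((n0 : ZMod q) + (M : ZMod q) * y)) ((t : ℕ) : ZMod q) := by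
    intro t _
    push_cast
    rfl
  rw [sum_congr rfl h1]
  have h2 : ∑ t ∈ range q, (fun y : ZMod q => H ((n0 : ZMod q) + (M : ZMod q) * y))
      ((t : ℕ) : ZMod q) = ∑ y : ZMod q, H ((n0 : ZMod q) + (M : ZMod q) * y) := by
    symm
    refine sum_bij (fun (y : ZMod q) _ => y.val) ?_ ?_ ?_ ?_
    · intro y _
      exact mem_range.2 (ZMod.val_lt y)
    · intro y _ y' _ h
      exact ZMod.val_injective q h
    · intro t ht
      refine ⟨(t : ZMod q), mem_univ _, ?_⟩
      exact ZMod.val_cast_of_lt (mem_range.1 ht)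
    · intro y _
      rw [ZMod.natCast_zmod_val]
  rw [h2]
  have hu : IsUnit (M : ZMod q) := (ZMod.isUnit_iff_coprime M q).2 hM
  obtain ⟨u, hu⟩ := hu
  have hbij : Function.Bijective (fun y : ZMod q => (n0 : ZMod q) + (M : ZMod q) * y) := by
    constructor
    · intro y y' h
      have h3 : (M : ZMod q) * y = (M : ZMod q) * y' := add_left_cancel h
      rw [← hu] at h3
      exact (Units.mul_right_inj u).1 h3
    · intro y
      refine ⟨(↑u⁻¹ : ZMod q) * (y - n0), ?_⟩
      show (n0 : ZMod q) + (M : ZMod q) * ((↑u⁻¹ : ZMod q) * (y - n0)) = y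
      rw [← mul_assoc, ← hu, Units.mul_inv, one_mul]
      ring
  exact Fintype.sum_bijective _ hbij _ _ (fun _ => rfl)

/-- the average along a progression is the average over a period, up to an error -/
theorem sum_range_sub {q : ℕ} [NeZero q] (H : ZMod q → ℝ) (hH : ∀ y, |H y| ≤ 1) {M : ℕ}
    (hM : Nat.Coprime M q) (T : ℕ) (n0 : ℤ) :
    |∑ t ∈ range T, H ((n0 + M * (t : ℕ) : ℤ) : ZMod q) -
      (T : ℝ) / q * ∑ y : ZMod q, H y| ≤ 2 * q := by
  have hq : (0 : ℝ) < q := by exact_mod_cast Nat.pos_of_ne_zero (NeZero.ne q)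
  have hsum : |∑ y : ZMod q, H y| ≤ q := by
    refine (abs_sum_le_sum_abs _ _).trans ?_
    refine (sum_le_sum fun y _ => hH y).trans ?_
    simp
  induction T using Nat.strong_induction_on generalizing n0 with
  | _ T ih =>
    by_cases hT : T < q
    · have h1 : |∑ t ∈ range T, H ((n0 + M * (t : ℕ) : ℤ) : ZMod q)| ≤ T := by
        refine (abs_sum_le_sum_abs _ _).trans ?_
        refine (sum_le_sum fun y _ => hH _).trans ?_
        simp
      have h2 : |(T : ℝ) / q * ∑ y : ZMod q, H y| ≤ T := by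
        rw [abs_mul, abs_of_nonneg (by positivity)]
        calc (T : ℝ) / q * |∑ y : ZMod q, H y| ≤ (T : ℝ) / q * q :=
              mul_le_mul_of_nonneg_left hsum (by positivity)
          _ = T := by field_simp
      have h3 : (T : ℝ) ≤ q := by exact_mod_cast hT.le
      calc _ ≤ |∑ t ∈ range T, H ((n0 + M * (t : ℕ) : ℤ) : ZMod q)| +
            |(T : ℝ) / q * ∑ y : ZMod q, H y| := abs_sub _ _
        _ ≤ 2 * q := by linarith
    · rw [not_lt] at hT
      obtain ⟨S, rfl⟩ := Nat.exists_eq_add_of_le hT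
      have h1 := ih S (by have := Nat.pos_of_ne_zero (NeZero.ne q); omega) (n0 + M * (q : ℕ))
      rw [sum_range_add, sum_period H hM]
      have h2 : ∑ x ∈ range S, H ((n0 + M * ((q + x : ℕ) : ℕ) : ℤ) : ZMod q) =
          ∑ t ∈ range S, H ((n0 + M * (q : ℕ) + M * (t : ℕ) : ℤ) : ZMod q) := by
        refine sum_congr rfl fun t _ => ?_
        congr 2
        push_cast
        ring
      rw [h2]
      have h3 : (((q + S : ℕ) : ℝ)) / q * ∑ y : ZMod q, H y =
          ∑ y : ZMod q, H y + (S : ℝ) / q * ∑ y : ZMod q, H y := by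
        push_cast
        field_simp
      rw [h3]
      rw [show ∀ a b c : ℝ, a + b - (a + c) = b - c by intros; ring]
      exact h1

/-- Chinese remainder theorem for sums of products -/
theorem sum_prod_crt {ι : Type*} [Fintype ι] (a : ι → ℕ) [∀ i, NeZero (a i)]
    [NeZero (∏ i, a i)]
    (hc : Pairwise (Function.onFun Nat.Coprime a)) (f : ∀ i, ZMod (a i) → ℝ) :
    ∑ y : ZMod (∏ i, a i), ∏ i, f i (ZMod.castHom (dvd_prod_of_mem a (mem_univ i)) _ y) =
      ∏ i, ∑ x : ZMod (a i), f i x := by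
  classical
  have h1 : ∑ y : ZMod (∏ i, a i), ∏ i, f i (ZMod.castHom (dvd_prod_of_mem a (mem_univ i)) _ y) =
      ∑ x : (∀ i, ZMod (a i)), ∏ i, f i (x i) := by
    refine Fintype.sum_equiv (ZMod.prodEquivPi a hc).toEquiv _ _ fun y => ?_
    refine prod_congr rfl fun i _ => ?_
    congr 1
    exact (ZMod.prodEquivPi_apply a hc y i).symm
  rw [h1]
  rw [← Finset.prod_univ_sum (fun i => (univ : Finset (ZMod (a i)))) f |>.symm]
  rw [Fintype.piFinset_univ]

end Pool.Agent.RW
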