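import Mathlib

/-!
# RW-Alg: the finite algebra of the repelling weights

Project RW, `MP_0ec542_nt`, Theorem R of helper47, steps (4), (6), (7). `P` is a finite type (the
primes in use), `k` the number of shifts, `w p` the size of `p` (the prime itself), `f p = p - 1`.
A function `σ : P → Option (Fin k)` assigns primes to shifts; `cell σ j` is the set of primes
assigned to `j`.
-/

namespace Pool.Agent.RW.Alg

open Finset

variable {P : Type} [Fintype P] [DecidableEq P] {k : ℕ}

/-- the elements assigned to `j` -/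
def cell (σ : P → Option (Fin k)) (j : Fin k) : Finset P := univ.filter (fun p => σ p = some j)

/-- the elements assigned to some `j` -/
def supp (σ : P → Option (Fin k)) : Finset P := univ.filter (fun p => σ p ≠ none)

/-- product over a set -/
def pr (w : P → ℝ) (S : Finset P) : ℝ := ∏ p ∈ S, w p

/-- product of local values -/
def ev (v : P → Fin k → ℝ) (σ : P → Option (Fin k)) : ℝ :=
  ∏ p, (σ p).elim 1 (fun i => v p i)

/-- assign the elements of `S` to `m` -/
def ins (m : Fin k) (S : Finset P) (σ : P → Option (Fin k)) : P → Option (Fin k) :=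
  fun p => if p ∈ S then some m else σ p

/-- remove the elements assigned to `m` -/
def del (m : Fin k) (σ : P → Option (Fin k)) : P → Option (Fin k) :=
  fun p => if σ p = some m then none else σ p

theorem mem_cell (σ : P → Option (Fin k)) (j : Fin k) (p : P) : p ∈ cell σ j ↔ σ p = some j := by
  simp [cell]

theorem mem_supp (σ : P → Option (Fin k)) (p : P) : p ∈ supp σ ↔ σ p ≠ none := by
  simp [supp]

theorem ins_mem (m : Fin k) (S : Finset P) (σ : P → Option (Fin k)) (p : P) (hp : p ∈ S) :
    ins m S σ p = some m := by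
  simp [ins, hp]

theorem ins_not (m : Fin k) (S : Finset P) (σ : P → Option (Fin k)) (p : P) (hp : p ∉ S) :
    ins m S σ p = σ p := by
  simp [ins, hp]

theorem none_of (S : Finset P) (σ : P → Option (Fin k)) (hd : Disjoint S (supp σ)) (p : P)
    (hp : p ∈ S) : σ p = none := by
  by_contra h2
  exact (Finset.disjoint_left.1 hd hp) ((mem_supp σ p).2 h2)

theorem not_some (m : Fin k) (σ : P → Option (Fin k)) (h : cell σ m = ∅) (p : P) :
    σ p ≠ some m := by
  intro h2
  have h3 : p ∈ cell σ m := (mem_cell σ m p).2 h2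
  rw [h] at h3
  simp at h3

theorem cell_ins_same (m : Fin k) (S : Finset P) (σ : P → Option (Fin k)) (h : cell σ m = ∅) :
    cell (ins m S σ) m = S := by
  ext p
  rw [mem_cell]
  by_cases hp : p ∈ S
  · rw [ins_mem m S σ p hp]
    simp [hp]
  · rw [ins_not m S σ p hp]
    simp [hp, not_some m σ h p]

theorem cell_ins_ne (m j : Fin k) (S : Finset P) (σ : P → Option (Fin k)) (hj : j ≠ m)
    (hd : Disjoint S (supp σ)) : cell (ins m S σ) j = cell σ j := by
  ext p
  rw [mem_cell, mem_cell]
  by_cases hp : p ∈ S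
  · rw [ins_mem m S σ p hp, none_of S σ hd p hp]
    simp [Ne.symm hj]
  · rw [ins_not m S σ p hp]

theorem supp_ins (m : Fin k) (S : Finset P) (σ : P → Option (Fin k)) :
    supp (ins m S σ) = S ∪ supp σ := by
  ext p
  rw [mem_union, mem_supp, mem_supp]
  by_cases hp : p ∈ S
  · rw [ins_mem m S σ p hp]
    simp [hp]
  · rw [ins_not m S σ p hp]
    simp [hp]

theorem pr_union (w : P → ℝ) (S U : Finset P) (h : Disjoint S U) :
    pr w (S ∪ U) = pr w S * pr w U := by
  unfold pr
  exact Finset.prod_union h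

theorem pr_empty (w : P → ℝ) : pr w ∅ = 1 := by
  simp [pr]

theorem pr_pos (w : P → ℝ) (hw : ∀ p, 0 < w p) (S : Finset P) : 0 < pr w S :=
  Finset.prod_pos (fun p _ => hw p)

theorem one_le_pr (w : P → ℝ) (hw : ∀ p, 1 ≤ w p) (S : Finset P) : 1 ≤ pr w S := by
  unfold pr
  induction S using Finset.induction_on with
  | empty => simp
  | insert a s ha ih =>
    rw [Finset.prod_insert ha]
    exact one_le_mul_of_one_le_of_one_le (hw a) ih

theorem ev_ins (v : P → Fin k → ℝ) (m : Fin k) (S : Finset P) (σ : P → Option (Fin k))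
    (hd : Disjoint S (supp σ)) : ev v (ins m S σ) = (∏ p ∈ S, v p m) * ev v σ := by
  unfold ev
  have h1 : (∏ p ∈ S, v p m) = ∏ p, (if p ∈ S then v p m else 1) := by
    rw [Finset.prod_ite_mem, Finset.univ_inter]
  rw [h1, ← Finset.prod_mul_distrib]
  apply Finset.prod_congr rfl
  intro p _
  by_cases hp : p ∈ S
  · rw [ins_mem m S σ p hp, none_of S σ hd p hp, if_pos hp]
    simp only [Option.elim_some, Option.elim_none, mul_one]
  · rw [ins_not m S σ p hp, if_neg hp, one_mul]

theorem pr_supp (w : P → ℝ) (σ : P → Option (Fin k)) : pr w (supp σ) = ∏ j, pr w (cell σ j) := by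
  have h1 : supp σ = univ.biUnion (fun j => cell σ j) := by
    ext p
    rw [mem_supp, mem_biUnion]
    constructor
    · intro h
      obtain ⟨i, hi⟩ := Option.ne_none_iff_exists'.1 h
      exact ⟨i, mem_univ _, (mem_cell σ i p).2 hi⟩
    · rintro ⟨i, _, hi⟩
      rw [mem_cell] at hi
      rw [hi]
      simp
  unfold pr
  rw [h1, Finset.prod_biUnion]
  intro i _ j _ hij
  rw [Function.onFun, Finset.disjoint_left]
  intro p hp hp'
  rw [mem_cell] at hp hp'
  rw [hp] at hp'
  exact hij (Option.some_injective _ hp')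

/-- summation over `σ`: first the part that avoids `m`, then the cell of `m` -/
theorem sum_split (m : Fin k) (Φ : (P → Option (Fin k)) → ℝ) :
    ∑ σ, Φ σ = ∑ σ ∈ univ.filter (fun σ : P → Option (Fin k) => cell σ m = ∅),
      ∑ S ∈ univ.filter (fun S : Finset P => Disjoint S (supp σ)), Φ (ins m S σ) := by
  classical
  rw [Finset.sum_sigma']
  symm
  apply Finset.sum_bij' (fun x _ => ins m x.2 x.1)
    (fun σ _ => (⟨del m σ, cell σ m⟩ : (_ : P → Option (Fin k)) × Finset P))
  · intro x _
    exact mem_univ _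
  · intro σ _
    simp only [mem_sigma, mem_filter, mem_univ, true_and]
    constructor
    · rw [Finset.eq_empty_iff_forall_notMem]
      intro p hp
      rw [mem_cell] at hp
      unfold del at hp
      by_cases h : σ p = some m
      · simp [h] at hp
      · rw [if_neg h] at hp
        exact h hp
    · rw [Finset.disjoint_left]
      intro p hp hp'
      rw [mem_cell] at hp
      rw [mem_supp] at hp'
      unfold del at hp'
      rw [if_pos hp] at hp'
      exact hp' rfl
  · intro x hx
    obtain ⟨σ, S⟩ := x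
    simp only [mem_sigma, mem_filter, mem_univ, true_and] at hx
    have h1 : del m (ins m S σ) = σ := by
      funext p
      unfold del
      by_cases hp : p ∈ S
      · rw [ins_mem m S σ p hp, none_of S σ hx.2 p hp, if_pos rfl]
      · rw [ins_not m S σ p hp, if_neg (not_some m σ hx.1 p)]
    have h2 : cell (ins m S σ) m = S := cell_ins_same m S σ hx.1
    simp only [h1, h2]
  · intro σ _
    funext p
    by_cases h : σ p = some m
    · rw [ins_mem _ _ _ _ ((mem_cell σ m p).2 h), h]
    · rw [ins_not _ _ _ _ (fun h' => h ((mem_cell σ m p).1 h'))]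
      exact if_neg h
  · intro x _
    rfl

/-- the local factor `c U` -/
noncomputable def cf (w f : P → ℝ) (y : Finset P → ℝ) (D : ℝ) (U : Finset P) : ℝ :=
  ∑ S ∈ univ.filter (fun S : Finset P => Disjoint S U ∧ pr w S * pr w U ≤ D), y S / pr f S

/-- the normalisation `G U` -/
noncomputable def Gf (w f : P → ℝ) (D₁ : ℝ) (U : Finset P) : ℝ :=
  ∑ S ∈ univ.filter (fun S : Finset P => Disjoint S U ∧ pr w S ≤ D₁), (pr f S)⁻¹

open Classical in
/-- the coefficients of `g` -/
noncomputable def Yc (w : P → ℝ) (y : Finset P → ℝ) (D : ℝ) (σ : P → Option (Fin k)) : ℝ :=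
  if pr w (supp σ) ≤ D then ∏ j, y (cell σ j) else 0

open Classical in
/-- the coefficients of `F_m` -/
noncomputable def Zc (w f : P → ℝ) (y : Finset P → ℝ) (D D₁ : ℝ) (m : Fin k)
    (σ : P → Option (Fin k)) : ℝ :=
  if pr w (cell σ m) ≤ D₁ then
    (∏ j ∈ univ.erase m, y (cell σ j)) * (cf w f y D (supp σ \ cell σ m) /
      Gf w f D₁ (supp σ \ cell σ m)) else 0

theorem Gf_pos (w f : P → ℝ) (hf : ∀ p, 0 < f p) (D₁ : ℝ) (hD₁ : 1 ≤ D₁) (U : Finset P) :
    0 < Gf w f D₁ U := by
  unfold Gf
  apply Finset.sum_pos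
  · intro S _
    exact inv_pos.2 (pr_pos f hf S)
  · refine ⟨∅, ?_⟩
    simp only [mem_filter, mem_univ, true_and, Finset.disjoint_empty_left]
    rw [pr_empty]
    exact hD₁

theorem one_le_Gf (w f : P → ℝ) (hf : ∀ p, 0 < f p) (D₁ : ℝ) (hD₁ : 1 ≤ D₁) (U : Finset P) :
    1 ≤ Gf w f D₁ U := by
  unfold Gf
  have h1 : (∅ : Finset P) ∈ univ.filter (fun S : Finset P => Disjoint S U ∧ pr w S ≤ D₁) := by
    simp only [mem_filter, mem_univ, true_and, Finset.disjoint_empty_left]
    rw [pr_empty]
    exact hD₁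
  have h2 := Finset.single_le_sum (f := fun S : Finset P => (pr f S)⁻¹)
    (fun S _ => (inv_pos.2 (pr_pos f hf S)).le) h1
  simp only [pr_empty, inv_one] at h2
  exact h2

theorem cf_zero (w f : P → ℝ) (hw : ∀ p, 1 ≤ w p) (y : Finset P → ℝ) (D : ℝ) (U : Finset P)
    (h : D < pr w U) : cf w f y D U = 0 := by
  unfold cf
  apply Finset.sum_eq_zero
  intro S hS
  simp only [mem_filter, mem_univ, true_and] at hS
  have h1 := one_le_pr w hw S
  have h2 : (0 : ℝ) < pr w U := lt_of_lt_of_le one_pos (one_le_pr w hw U)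
  nlinarith [hS.2]

theorem sdiff_ins (m : Fin k) (S : Finset P) (σ : P → Option (Fin k)) (h : cell σ m = ∅)
    (hd : Disjoint S (supp σ)) : supp (ins m S σ) \ cell (ins m S σ) m = supp σ := by
  rw [supp_ins, cell_ins_same m S σ h]
  ext p
  simp only [mem_sdiff, mem_union]
  constructor
  · rintro ⟨h1 | h1, h2⟩
    · exact absurd h1 h2
    · exact h1
  · intro h1
    exact ⟨Or.inr h1, fun h2 => (Finset.disjoint_left.1 hd h2) h1⟩

theorem prod_ins (y : Finset P → ℝ) (m : Fin k) (S : Finset P) (σ : P → Option (Fin k))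
    (hd : Disjoint S (supp σ)) :
    ∏ j ∈ univ.erase m, y (cell (ins m S σ) j) = ∏ j ∈ univ.erase m, y (cell σ j) := by
  apply Finset.prod_congr rfl
  intro j hj
  rw [cell_ins_ne m j S σ (Finset.ne_of_mem_erase hj) hd]

/-- **Step (4)**: if all local values at `m` are `1 / f p`, the function `g` is `F_m` -/
theorem sum_Y_eq (w f : P → ℝ) (_hw : ∀ p, 1 ≤ w p) (hf : ∀ p, 0 < f p) (y : Finset P → ℝ)
    (D D₁ : ℝ) (hD₁ : 1 ≤ D₁) (m : Fin k) (v : P → Fin k → ℝ) (hv : ∀ p, v p m = (f p)⁻¹) :
    ∑ σ, Yc w y D σ * ev v σ = ∑ σ, Zc w f y D D₁ m σ * ev v σ := by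
  classical
  rw [sum_split m, sum_split m]
  apply Finset.sum_congr rfl
  intro σ hσ
  simp only [mem_filter, mem_univ, true_and] at hσ
  have hS : ∀ S : Finset P, (∏ p ∈ S, v p m) = (pr f S)⁻¹ := by
    intro S
    unfold pr
    rw [← Finset.prod_inv_distrib]
    exact Finset.prod_congr rfl (fun p _ => hv p)
  have hL : ∑ S ∈ univ.filter (fun S : Finset P => Disjoint S (supp σ)),
      Yc w y D (ins m S σ) * ev v (ins m S σ) =
      (∏ j ∈ univ.erase m, y (cell σ j)) * cf w f y D (supp σ) * ev v σ := by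
    unfold cf
    rw [Finset.mul_sum, Finset.sum_mul]
    have hfil : univ.filter (fun S : Finset P => Disjoint S (supp σ) ∧
        pr w S * pr w (supp σ) ≤ D) =
        (univ.filter (fun S : Finset P => Disjoint S (supp σ))).filter
          (fun S => pr w S * pr w (supp σ) ≤ D) := by
      rw [Finset.filter_filter]
    rw [hfil]
    conv_rhs => rw [Finset.sum_filter]
    apply Finset.sum_congr rfl
    intro S hS'
    simp only [mem_filter, mem_univ, true_and] at hS'
    unfold Yc
    rw [supp_ins, pr_union w S (supp σ) hS', ev_ins v m S σ hS', hS S]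
    by_cases hc : pr w S * pr w (supp σ) ≤ D
    · rw [if_pos hc, if_pos hc, ← Finset.mul_prod_erase univ _ (mem_univ m),
        cell_ins_same m S σ hσ, prod_ins y m S σ hS']
      field_simp
    · rw [if_neg hc, if_neg hc, zero_mul]
  have hR : ∑ S ∈ univ.filter (fun S : Finset P => Disjoint S (supp σ)),
      Zc w f y D D₁ m (ins m S σ) * ev v (ins m S σ) =
      (∏ j ∈ univ.erase m, y (cell σ j)) * (cf w f y D (supp σ) / Gf w f D₁ (supp σ)) *
        ev v σ * Gf w f D₁ (supp σ) := by
    have hfil : univ.filter (fun S : Finset P => Disjoint S (supp σ) ∧ pr w S ≤ D₁) =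
        (univ.filter (fun S : Finset P => Disjoint S (supp σ))).filter
          (fun S => pr w S ≤ D₁) := by
      rw [Finset.filter_filter]
    have hG' : Gf w f D₁ (supp σ) = ∑ S ∈ (univ.filter (fun S : Finset P =>
        Disjoint S (supp σ))).filter (fun S => pr w S ≤ D₁), (pr f S)⁻¹ := by
      rw [← hfil]
      rfl
    have hG2 : (∏ j ∈ univ.erase m, y (cell σ j)) * (cf w f y D (supp σ) / Gf w f D₁ (supp σ)) *
        ev v σ * Gf w f D₁ (supp σ) =
        ∑ S ∈ (univ.filter (fun S : Finset P => Disjoint S (supp σ))).filter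
          (fun S => pr w S ≤ D₁), (∏ j ∈ univ.erase m, y (cell σ j)) *
            (cf w f y D (supp σ) / Gf w f D₁ (supp σ)) * ev v σ * (pr f S)⁻¹ := by
      rw [← Finset.mul_sum, ← hG']
    rw [hG2]
    conv_rhs => rw [Finset.sum_filter]
    apply Finset.sum_congr rfl
    intro S hS'
    simp only [mem_filter, mem_univ, true_and] at hS'
    unfold Zc
    rw [sdiff_ins m S σ hσ hS', ev_ins v m S σ hS', hS S, cell_ins_same m S σ hσ,
      prod_ins y m S σ hS']
    by_cases hc : pr w S ≤ D₁
    · rw [if_pos hc, if_pos hc]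
      ring
    · rw [if_neg hc, if_neg hc, zero_mul]
  rw [hL, hR]
  have hG := Gf_pos w f hf D₁ hD₁ (supp σ)
  field_simp

end Pool.Agent.RW.Alg
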