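import Pool.Agent.RW.Alg

/-!
# RW-Alg2: the sums of squares and the final inequality

Steps (6) and (7) of Theorem R: the sum of the squares of the coefficients of `F_m`, the Chernoff
bound for the boundary part, and the assembly.
-/

namespace Pool.Agent.RW.Alg

open Finset

variable {P : Type} [Fintype P] [DecidableEq P] {k : ℕ}

/-- weighted sum of the squares of the coefficients of `g` -/
noncomputable def ZZ (k : ℕ) (w f : P → ℝ) (y : Finset P → ℝ) (D : ℝ) : ℝ :=
  ∑ σ : P → Option (Fin k), Yc w y D σ ^ 2 / pr f (supp σ)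

open Classical in
/-- the boundary part of `ZZ` -/
noncomputable def ZG (k : ℕ) (w f : P → ℝ) (y : Finset P → ℝ) (D D₀ : ℝ) : ℝ :=
  ∑ σ ∈ univ.filter (fun σ : P → Option (Fin k) => D₀ < pr w (supp σ)),
    Yc w y D σ ^ 2 / pr f (supp σ)

/-- the exponential moment of one cell -/
noncomputable def th (w f : P → ℝ) (y : Finset P → ℝ) (r : ℝ) : ℝ :=
  ∑ S : Finset P, y S ^ 2 / pr f S * (pr w S ^ r - 1)

theorem abs_Yc_le (w : P → ℝ) (y : Finset P → ℝ) (hy : ∀ S, |y S| ≤ 1) (D : ℝ)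
    (σ : P → Option (Fin k)) : |Yc w y D σ| ≤ 1 := by
  unfold Yc
  split_ifs
  · rw [Finset.abs_prod]
    exact Finset.prod_le_one (fun _ _ => abs_nonneg _) (fun _ _ => hy _)
  · simp

theorem Yc_zero (w : P → ℝ) (y : Finset P → ℝ) (D : ℝ) (σ : P → Option (Fin k))
    (h : D < pr w (supp σ)) : Yc w y D σ = 0 := by
  unfold Yc
  rw [if_neg (not_le.2 h)]

theorem abs_Zc_le (w f : P → ℝ) (hw : ∀ p, 1 ≤ w p) (hf : ∀ p, 0 < f p) (y : Finset P → ℝ)
    (hy : ∀ S, |y S| ≤ 1) (D D₁ : ℝ) (hD₁ : 1 ≤ D₁)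
    (hc : ∀ U, pr w U ≤ D → |cf w f y D U| ≤ 1) (m : Fin k) (σ : P → Option (Fin k)) :
    |Zc w f y D D₁ m σ| ≤ 1 := by
  have hc' : ∀ U, |cf w f y D U| ≤ 1 := by
    intro U
    by_cases h : pr w U ≤ D
    · exact hc U h
    · rw [cf_zero w f hw y D U (not_le.1 h)]
      simp
  unfold Zc
  split_ifs
  · rw [abs_mul, Finset.abs_prod, abs_div]
    have h1 : ∏ j ∈ univ.erase m, |y (cell σ j)| ≤ 1 :=
      Finset.prod_le_one (fun _ _ => abs_nonneg _) (fun _ _ => hy _)
    have h2 := one_le_Gf w f hf D₁ hD₁ (supp σ \ cell σ m)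
    have h3 := hc' (supp σ \ cell σ m)
    rw [abs_of_pos (lt_of_lt_of_le one_pos h2)]
    have h4 : |cf w f y D (supp σ \ cell σ m)| / Gf w f D₁ (supp σ \ cell σ m) ≤ 1 := by
      rw [div_le_one (lt_of_lt_of_le one_pos h2)]
      linarith
    have h5 : 0 ≤ |cf w f y D (supp σ \ cell σ m)| / Gf w f D₁ (supp σ \ cell σ m) :=
      div_nonneg (abs_nonneg _) (le_trans zero_le_one h2)
    have h6 : 0 ≤ ∏ j ∈ univ.erase m, |y (cell σ j)| :=
      Finset.prod_nonneg (fun _ _ => abs_nonneg _)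
    nlinarith
  · simp

theorem Zc_zero (w f : P → ℝ) (hw : ∀ p, 1 ≤ w p) (y : Finset P → ℝ) (D D₁ : ℝ) (m : Fin k)
    (σ : P → Option (Fin k)) (h : D * D₁ < pr w (supp σ)) : Zc w f y D D₁ m σ = 0 := by
  have hsub : cell σ m ⊆ supp σ := by
    intro p hp
    rw [mem_cell] at hp
    rw [mem_supp, hp]
    simp
  have h1 : pr w (supp σ) = pr w (cell σ m) * pr w (supp σ \ cell σ m) := by
    rw [← pr_union w _ _ (Finset.disjoint_sdiff), Finset.union_sdiff_of_subset hsub]
  unfold Zc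
  by_cases h2 : pr w (cell σ m) ≤ D₁
  · rw [if_pos h2]
    have h3 : D < pr w (supp σ \ cell σ m) := by
      by_contra h4
      have h5 := not_lt.1 h4
      have h6 : (0 : ℝ) ≤ pr w (cell σ m) := le_trans zero_le_one (one_le_pr w hw _)
      have h7 : (0 : ℝ) ≤ pr w (supp σ \ cell σ m) := le_trans zero_le_one (one_le_pr w hw _)
      have h8 : pr w (cell σ m) * pr w (supp σ \ cell σ m) ≤ D₁ * D :=
        mul_le_mul h2 h5 h7 (le_trans h6 h2)
      rw [h1] at h
      linarith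
    rw [cf_zero w f hw y D _ h3, zero_div, mul_zero]
  · rw [if_neg h2]

theorem term_nonneg (w f : P → ℝ) (hf : ∀ p, 0 < f p) (y : Finset P → ℝ) (D : ℝ)
    (σ : P → Option (Fin k)) : 0 ≤ Yc w y D σ ^ 2 / pr f (supp σ) :=
  div_nonneg (sq_nonneg _) (pr_pos f hf _).le

theorem one_le_ZZ (w f : P → ℝ) (hf : ∀ p, 0 < f p) (y : Finset P → ℝ) (hy : y ∅ = 1) (D : ℝ)
    (hD : 1 ≤ D) : 1 ≤ ZZ k w f y D := by
  unfold ZZ
  have h1 := Finset.single_le_sum
    (f := fun σ : P → Option (Fin k) => Yc w y D σ ^ 2 / pr f (supp σ))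
    (fun σ _ => term_nonneg w f hf y D σ) (mem_univ (fun _ => none))
  have h2 : supp (fun _ : P => (none : Option (Fin k))) = ∅ := by
    rw [Finset.eq_empty_iff_forall_notMem]
    intro p hp
    rw [mem_supp] at hp
    exact hp rfl
  have h3 : ∀ j, cell (fun _ : P => (none : Option (Fin k))) j = ∅ := by
    intro j
    rw [Finset.eq_empty_iff_forall_notMem]
    intro p hp
    rw [mem_cell] at hp
    simp at hp
  have h4 : Yc w y D (fun _ : P => (none : Option (Fin k))) = 1 := by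
    unfold Yc
    rw [h2, pr_empty, if_pos hD]
    exact Finset.prod_eq_one (fun j _ => by rw [h3, hy])
  simp only [h4, h2, pr_empty] at h1
  linarith

/-- **Step (6)**: the squares of the coefficients of `F_m` -/
theorem sum_Z_sq_le (w f : P → ℝ) (hw : ∀ p, 1 ≤ w p) (hf : ∀ p, 0 < f p) (y : Finset P → ℝ)
    (hy : y ∅ = 1) (D D₁ D₀ δ Gm : ℝ) (hD₁ : 1 ≤ D₁) (hGm : 0 < Gm)
    (hG : ∀ U, pr w U ≤ D → Gm ≤ Gf w f D₁ U)
    (hc₁ : ∀ U, pr w U ≤ D → |cf w f y D U| ≤ 1)
    (hc₂ : ∀ U, pr w U ≤ D → pr w U ≤ D₀ → |cf w f y D U| ≤ δ) (m : Fin k) :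
    ∑ σ, Zc w f y D D₁ m σ ^ 2 / pr f (supp σ) ≤
      (1 / Gm) * (δ ^ 2 * ZZ k w f y D + ZG k w f y D D₀) := by
  classical
  rw [sum_split m]
  have key : ∀ σ ∈ univ.filter (fun σ : P → Option (Fin k) => cell σ m = ∅),
      ∑ S ∈ univ.filter (fun S : Finset P => Disjoint S (supp σ)),
        Zc w f y D D₁ m (ins m S σ) ^ 2 / pr f (supp (ins m S σ)) ≤
      (1 / Gm) * (δ ^ 2 * (Yc w y D σ ^ 2 / pr f (supp σ)) +
        (if D₀ < pr w (supp σ) then Yc w y D σ ^ 2 / pr f (supp σ) else 0)) := by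
    intro σ hσ
    simp only [mem_filter, mem_univ, true_and] at hσ
    set U := supp σ with hU
    set A := ∏ j ∈ univ.erase m, y (cell σ j) with hA
    have hfU : 0 < pr f U := pr_pos f hf U
    have hGpos := Gf_pos w f hf D₁ hD₁ U
    have h1 : ∑ S ∈ univ.filter (fun S : Finset P => Disjoint S U),
        Zc w f y D D₁ m (ins m S σ) ^ 2 / pr f (supp (ins m S σ)) =
        (A * (cf w f y D U / Gf w f D₁ U)) ^ 2 / pr f U * Gf w f D₁ U := by
      have hfil : univ.filter (fun S : Finset P => Disjoint S U ∧ pr w S ≤ D₁) =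
          (univ.filter (fun S : Finset P => Disjoint S U)).filter
            (fun S => pr w S ≤ D₁) := by
        rw [Finset.filter_filter]
      have hG' : Gf w f D₁ U = ∑ S ∈ (univ.filter (fun S : Finset P =>
          Disjoint S U)).filter (fun S => pr w S ≤ D₁), (pr f S)⁻¹ := by
        rw [← hfil]
        rfl
      have hG2 : (A * (cf w f y D U / Gf w f D₁ U)) ^ 2 / pr f U * Gf w f D₁ U =
          ∑ S ∈ (univ.filter (fun S : Finset P => Disjoint S U)).filter
            (fun S => pr w S ≤ D₁),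
              (A * (cf w f y D U / Gf w f D₁ U)) ^ 2 / pr f U * (pr f S)⁻¹ := by
        rw [← Finset.mul_sum, ← hG']
      rw [hG2]
      conv_rhs => rw [Finset.sum_filter]
      apply Finset.sum_congr rfl
      intro S hS'
      simp only [mem_filter, mem_univ, true_and] at hS'
      have hfS : 0 < pr f S := pr_pos f hf S
      unfold Zc
      rw [sdiff_ins m S σ hσ hS', cell_ins_same m S σ hσ, prod_ins y m S σ hS', supp_ins,
        pr_union f S (supp σ) hS', ← hU, ← hA]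
      by_cases hc : pr w S ≤ D₁
      · rw [if_pos hc, if_pos hc]
        field_simp
      · rw [if_neg hc, if_neg hc]
        simp
    rw [h1]
    by_cases hUD : pr w U ≤ D
    · have hYA : Yc w y D σ = A := by
        unfold Yc
        rw [← hU, if_pos hUD, ← Finset.mul_prod_erase univ _ (mem_univ m), hσ, hy, one_mul]
      rw [hYA]
      have h2 : (A * (cf w f y D U / Gf w f D₁ U)) ^ 2 / pr f U * Gf w f D₁ U =
          (A ^ 2 / pr f U) * cf w f y D U ^ 2 * (1 / Gf w f D₁ U) := by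
        field_simp
      have h3 : 1 / Gf w f D₁ U ≤ 1 / Gm := one_div_le_one_div_of_le hGm (hG U hUD)
      have h4 : 0 ≤ A ^ 2 / pr f U := div_nonneg (sq_nonneg _) hfU.le
      have h5 : 0 ≤ (1 : ℝ) / Gm := by positivity
      have h6 : cf w f y D U ^ 2 ≤ δ ^ 2 + (if D₀ < pr w U then 1 else 0) := by
        by_cases h7 : D₀ < pr w U
        · rw [if_pos h7]
          have h8 := hc₁ U hUD
          have h9 : cf w f y D U ^ 2 ≤ 1 := by
            rw [← sq_abs]
            have := abs_nonneg (cf w f y D U)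
            nlinarith
          nlinarith [sq_nonneg δ]
        · rw [if_neg h7, add_zero]
          have h8 := hc₂ U hUD (not_lt.1 h7)
          rw [← sq_abs]
          exact pow_le_pow_left₀ (abs_nonneg _) h8 2
      rw [h2]
      calc (A ^ 2 / pr f U) * cf w f y D U ^ 2 * (1 / Gf w f D₁ U)
          ≤ (A ^ 2 / pr f U) * cf w f y D U ^ 2 * (1 / Gm) :=
            mul_le_mul_of_nonneg_left h3 (mul_nonneg h4 (sq_nonneg _))
        _ ≤ (A ^ 2 / pr f U) * (δ ^ 2 + (if D₀ < pr w U then 1 else 0)) * (1 / Gm) := by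
            apply mul_le_mul_of_nonneg_right _ h5
            exact mul_le_mul_of_nonneg_left h6 h4
        _ = (1 / Gm) * (δ ^ 2 * (A ^ 2 / pr f U) +
            (if D₀ < pr w U then A ^ 2 / pr f U else 0)) := by
            split_ifs <;> ring
    · rw [cf_zero w f hw y D U (not_le.1 hUD)]
      have h5 : 0 ≤ (1 : ℝ) / Gm := by positivity
      have h4 : 0 ≤ Yc w y D σ ^ 2 / pr f U := term_nonneg w f hf y D σ
      simp only [zero_div, mul_zero, ne_eq, OfNat.ofNat_ne_zero, not_false_eq_true, zero_pow,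
        zero_mul]
      apply mul_nonneg h5
      apply add_nonneg (mul_nonneg (sq_nonneg _) h4)
      split_ifs
      · exact h4
      · exact le_refl 0
  refine le_trans (Finset.sum_le_sum key) ?_
  refine le_trans (Finset.sum_le_sum_of_subset_of_nonneg (Finset.filter_subset _ _) ?_) ?_
  · intro σ _ _
    have h5 : 0 ≤ (1 : ℝ) / Gm := by positivity
    have h4 : 0 ≤ Yc w y D σ ^ 2 / pr f (supp σ) := term_nonneg w f hf y D σ
    apply mul_nonneg h5
    apply add_nonneg (mul_nonneg (sq_nonneg _) h4)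
    split_ifs
    · exact h4
    · exact le_refl 0
  · rw [← Finset.mul_sum, Finset.sum_add_distrib, ← Finset.mul_sum, ← Finset.sum_filter]
    exact le_of_eq rfl

/-- expansion of the exponential moment, one cell at a time -/
theorem moment_step (w : P → ℝ) (hw : ∀ p, 1 ≤ w p) (a b : Finset P → ℝ) (ha : ∀ S, 0 ≤ a S)
    (hb : ∀ S, 1 ≤ b S) (ha0 : a ∅ = 1) (D : ℝ) (J : Finset (Fin k)) (i : Fin k) (hi : i ∉ J) :
    ∑ σ ∈ univ.filter (fun σ : P → Option (Fin k) => pr w (supp σ) ≤ D),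
      (∏ j, a (cell σ j)) * ∏ j ∈ insert i J, b (cell σ j) ≤
    (1 + ∑ S, a S * (b S - 1)) *
      ∑ σ ∈ univ.filter (fun σ : P → Option (Fin k) => pr w (supp σ) ≤ D),
        (∏ j, a (cell σ j)) * ∏ j ∈ J, b (cell σ j) := by
  classical
  have hb0 : ∀ S, 0 ≤ b S := fun S => le_trans zero_le_one (hb S)
  have h1 : ∑ σ ∈ univ.filter (fun σ : P → Option (Fin k) => pr w (supp σ) ≤ D),
      (∏ j, a (cell σ j)) * ∏ j ∈ insert i J, b (cell σ j) =
      ∑ σ ∈ univ.filter (fun σ : P → Option (Fin k) => pr w (supp σ) ≤ D),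
        (∏ j, a (cell σ j)) * ∏ j ∈ J, b (cell σ j) +
      ∑ σ : P → Option (Fin k), (if pr w (supp σ) ≤ D then
        (∏ j, a (cell σ j)) * (∏ j ∈ J, b (cell σ j)) * (b (cell σ i) - 1) else 0) := by
    rw [← Finset.sum_filter, ← Finset.sum_add_distrib]
    apply Finset.sum_congr rfl
    intro σ _
    rw [Finset.prod_insert hi]
    ring
  rw [h1, add_mul, one_mul]
  apply add_le_add le_rfl
  rw [sum_split i, Finset.mul_sum]
  have hsub : ∀ σ : P → Option (Fin k), 0 ≤ (∏ j, a (cell σ j)) * ∏ j ∈ J, b (cell σ j) :=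
    fun σ => mul_nonneg (Finset.prod_nonneg (fun _ _ => ha _))
      (Finset.prod_nonneg (fun _ _ => hb0 _))
  have hθ : 0 ≤ ∑ S, a S * (b S - 1) :=
    Finset.sum_nonneg (fun S _ => mul_nonneg (ha S) (by linarith [hb S]))
  have key : ∀ σ ∈ univ.filter (fun σ : P → Option (Fin k) => cell σ i = ∅),
      ∑ S ∈ univ.filter (fun S : Finset P => Disjoint S (supp σ)),
        (if pr w (supp (ins i S σ)) ≤ D then
          (∏ j, a (cell (ins i S σ) j)) * (∏ j ∈ J, b (cell (ins i S σ) j)) *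
            (b (cell (ins i S σ) i) - 1) else 0) ≤
      (if pr w (supp σ) ≤ D then (∑ S, a S * (b S - 1)) *
        ((∏ j, a (cell σ j)) * ∏ j ∈ J, b (cell σ j)) else 0) := by
    intro σ hσ
    simp only [mem_filter, mem_univ, true_and] at hσ
    have h2 : ∀ S ∈ univ.filter (fun S : Finset P => Disjoint S (supp σ)),
        (if pr w (supp (ins i S σ)) ≤ D then
          (∏ j, a (cell (ins i S σ) j)) * (∏ j ∈ J, b (cell (ins i S σ) j)) *
            (b (cell (ins i S σ) i) - 1) else 0) ≤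
        (if pr w (supp σ) ≤ D then (a S * (b S - 1)) *
          ((∏ j, a (cell σ j)) * ∏ j ∈ J, b (cell σ j)) else 0) := by
      intro S hS
      simp only [mem_filter, mem_univ, true_and] at hS
      have h3 : ∏ j ∈ J, b (cell (ins i S σ) j) = ∏ j ∈ J, b (cell σ j) := by
        apply Finset.prod_congr rfl
        intro j hj
        rw [cell_ins_ne i j S σ (fun h => hi (h ▸ hj)) hS]
      have h4 : ∏ j, a (cell (ins i S σ) j) = a S * ∏ j, a (cell σ j) := by
        rw [← Finset.mul_prod_erase univ (fun j => a (cell (ins i S σ) j)) (mem_univ i),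
          ← Finset.mul_prod_erase univ (fun j => a (cell σ j)) (mem_univ i),
          prod_ins a i S σ hS, cell_ins_same i S σ hσ, hσ, ha0, one_mul]
      have h5 : pr w (supp (ins i S σ)) = pr w S * pr w (supp σ) := by
        rw [supp_ins, pr_union w S (supp σ) hS]
      have h6 : pr w (supp σ) ≤ pr w (supp (ins i S σ)) := by
        rw [h5]
        have h7 := one_le_pr w hw S
        have h8 := one_le_pr w hw (supp σ)
        nlinarith
      have h9 : 0 ≤ (a S * (b S - 1)) * ((∏ j, a (cell σ j)) * ∏ j ∈ J, b (cell σ j)) :=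
        mul_nonneg (mul_nonneg (ha S) (by linarith [hb S])) (hsub σ)
      by_cases hc : pr w (supp (ins i S σ)) ≤ D
      · rw [if_pos hc, if_pos (le_trans h6 hc), h3, h4, cell_ins_same i S σ hσ]
        apply le_of_eq
        ring
      · rw [if_neg hc]
        split_ifs
        · exact h9
        · exact le_refl 0
    refine le_trans (Finset.sum_le_sum h2) ?_
    by_cases hc : pr w (supp σ) ≤ D
    · simp only [if_pos hc]
      rw [← Finset.sum_mul]
      apply mul_le_mul_of_nonneg_right _ (hsub σ)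
      exact Finset.sum_le_sum_of_subset_of_nonneg (Finset.filter_subset _ _)
        (fun S _ _ => mul_nonneg (ha S) (by linarith [hb S]))
    · simp only [if_neg hc, Finset.sum_const_zero]
      exact le_refl 0
  refine le_trans (Finset.sum_le_sum key) ?_
  refine le_trans (Finset.sum_le_sum_of_subset_of_nonneg (Finset.filter_subset _ _) ?_) ?_
  · intro σ _ _
    split_ifs
    · exact mul_nonneg hθ (hsub σ)
    · exact le_refl 0
  · rw [← Finset.sum_filter]

theorem moment_le (w : P → ℝ) (hw : ∀ p, 1 ≤ w p) (a b : Finset P → ℝ) (ha : ∀ S, 0 ≤ a S)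
    (hb : ∀ S, 1 ≤ b S) (ha0 : a ∅ = 1) (D : ℝ) (J : Finset (Fin k)) :
    ∑ σ ∈ univ.filter (fun σ : P → Option (Fin k) => pr w (supp σ) ≤ D),
      (∏ j, a (cell σ j)) * ∏ j ∈ J, b (cell σ j) ≤
    (1 + ∑ S, a S * (b S - 1)) ^ J.card *
      ∑ σ ∈ univ.filter (fun σ : P → Option (Fin k) => pr w (supp σ) ≤ D),
        (∏ j, a (cell σ j)) := by
  classical
  have hθ : 0 ≤ ∑ S, a S * (b S - 1) :=
    Finset.sum_nonneg (fun S _ => mul_nonneg (ha S) (by linarith [hb S]))
  induction J using Finset.induction_on with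
  | empty => simp
  | insert i J hi ih =>
    refine le_trans (moment_step w hw a b ha hb ha0 D J i hi) ?_
    rw [Finset.card_insert_of_notMem hi, pow_succ]
    have h1 := mul_le_mul_of_nonneg_left ih (by linarith : (0 : ℝ) ≤ 1 + ∑ S, a S * (b S - 1))
    refine le_trans h1 (le_of_eq ?_)
    ring

theorem th_nonneg (w f : P → ℝ) (hw : ∀ p, 1 ≤ w p) (hf : ∀ p, 0 < f p) (y : Finset P → ℝ)
    (r : ℝ) (hr : 0 ≤ r) : 0 ≤ th w f y r := by
  unfold th
  apply Finset.sum_nonneg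
  intro S _
  apply mul_nonneg (div_nonneg (sq_nonneg _) (pr_pos f hf S).le)
  have := Real.one_le_rpow (one_le_pr w hw S) hr
  linarith

/-- **Step (7)**: Chernoff bound for the boundary part -/
theorem ZG_le (w f : P → ℝ) (hw : ∀ p, 1 ≤ w p) (hf : ∀ p, 0 < f p) (y : Finset P → ℝ)
    (hy : y ∅ = 1) (D D₀ r : ℝ) (hD₀ : 0 < D₀) (hr : 0 ≤ r) :
    ZG k w f y D D₀ ≤ D₀ ^ (-r) * (1 + th w f y r) ^ k * ZZ k w f y D := by
  classical
  have hm := moment_le (k := k) w hw (fun S => y S ^ 2 / pr f S) (fun S => pr w S ^ r)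
    (fun S => div_nonneg (sq_nonneg _) (pr_pos f hf S).le)
    (fun S => Real.one_le_rpow (one_le_pr w hw S) hr)
    (by simp only [hy, pr_empty]; norm_num) D univ
  rw [Finset.card_univ, Fintype.card_fin] at hm
  have h1 : ∀ σ : P → Option (Fin k), pr w (supp σ) ≤ D →
      ∏ j, (y (cell σ j) ^ 2 / pr f (cell σ j)) = Yc w y D σ ^ 2 / pr f (supp σ) := by
    intro σ hσ
    unfold Yc
    rw [if_pos hσ, pr_supp f σ, Finset.prod_div_distrib, Finset.prod_pow]
  have h2 : ∑ σ ∈ univ.filter (fun σ : P → Option (Fin k) => pr w (supp σ) ≤ D),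
      (∏ j, (y (cell σ j) ^ 2 / pr f (cell σ j))) = ZZ k w f y D := by
    unfold ZZ
    rw [Finset.sum_filter]
    apply Finset.sum_congr rfl
    intro σ _
    by_cases hc : pr w (supp σ) ≤ D
    · rw [if_pos hc, h1 σ hc]
    · rw [if_neg hc, Yc_zero w y D σ (not_le.1 hc)]
      simp
  have h3 : ∀ σ : P → Option (Fin k), ∏ j, pr w (cell σ j) ^ r = pr w (supp σ) ^ r := by
    intro σ
    rw [pr_supp w σ, ← Real.finsetProd_rpow]
    intro j _
    exact le_trans zero_le_one (one_le_pr w hw _)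
  have h4 : ZG k w f y D D₀ ≤ D₀ ^ (-r) *
      ∑ σ ∈ univ.filter (fun σ : P → Option (Fin k) => pr w (supp σ) ≤ D),
        (∏ j, (y (cell σ j) ^ 2 / pr f (cell σ j))) * ∏ j, pr w (cell σ j) ^ r := by
    unfold ZG
    rw [Finset.mul_sum, Finset.sum_filter, Finset.sum_filter]
    apply Finset.sum_le_sum
    intro σ _
    have h5 := term_nonneg w f hf y D σ
    by_cases hc : pr w (supp σ) ≤ D
    · rw [if_pos hc, h1 σ hc, h3 σ]
      by_cases hd : D₀ < pr w (supp σ)
      · rw [if_pos hd]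
        have h6 : 1 ≤ D₀ ^ (-r) * pr w (supp σ) ^ r := by
          rw [Real.rpow_neg hD₀.le, ← div_eq_inv_mul, ← Real.div_rpow
            (le_trans zero_le_one (one_le_pr w hw _)) hD₀.le]
          apply Real.one_le_rpow _ hr
          rw [one_le_div hD₀]
          exact hd.le
        nlinarith
      · rw [if_neg hd]
        have h7 : 0 ≤ D₀ ^ (-r) := Real.rpow_nonneg hD₀.le _
        have h8 : 0 ≤ pr w (supp σ) ^ r :=
          Real.rpow_nonneg (le_trans zero_le_one (one_le_pr w hw _)) _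
        positivity
    · rw [if_neg hc, Yc_zero w y D σ (not_le.1 hc)]
      simp
  refine le_trans h4 ?_
  rw [mul_assoc]
  apply mul_le_mul_of_nonneg_left _ (Real.rpow_nonneg hD₀.le _)
  rw [h2] at hm
  exact hm

/-- **Assembly**: if at every time some shift has all local values `1 / f p`, the sum of squares
`ZZ` is bounded by a small multiple of itself -/
theorem main_ineq {τ : Type} (T : Finset τ) (v : τ → P → Fin k → ℝ) (w f : P → ℝ)
    (hw : ∀ p, 1 ≤ w p) (hf : ∀ p, 0 < f p) (y : Finset P → ℝ) (hy : y ∅ = 1)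
    (D D₁ D₀ δ Gm r c ε err : ℝ) (hD₁ : 1 ≤ D₁) (hGm : 0 < Gm) (hD₀ : 0 < D₀) (hr : 0 ≤ r)
    (hc : 0 ≤ c) (hε : 0 ≤ ε)
    (hG : ∀ U, pr w U ≤ D → Gm ≤ Gf w f D₁ U)
    (hc₁ : ∀ U, pr w U ≤ D → |cf w f y D U| ≤ 1)
    (hc₂ : ∀ U, pr w U ≤ D → pr w U ≤ D₀ → |cf w f y D U| ≤ δ)
    (hg : (1 - ε) * ZZ k w f y D - err ≤
      c * ∑ t ∈ T, (∑ σ, Yc w y D σ * ev (v t) σ) ^ 2)
    (hF : ∀ m : Fin k, c * ∑ t ∈ T, (∑ σ, Zc w f y D D₁ m σ * ev (v t) σ) ^ 2 ≤
      (1 + ε) * (∑ σ, Zc w f y D D₁ m σ ^ 2 / pr f (supp σ)) + err)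
    (hbad : ∀ t ∈ T, ∃ m : Fin k, ∀ p, v t p m = (f p)⁻¹) :
    (1 - ε) * ZZ k w f y D - err ≤
      (1 + ε) * (k / Gm) * (δ ^ 2 + D₀ ^ (-r) * (1 + th w f y r) ^ k) * ZZ k w f y D +
        k * err := by
  have h1 : ∀ t ∈ T, (∑ σ, Yc w y D σ * ev (v t) σ) ^ 2 ≤
      ∑ m : Fin k, (∑ σ, Zc w f y D D₁ m σ * ev (v t) σ) ^ 2 := by
    intro t ht
    obtain ⟨m, hm⟩ := hbad t ht
    rw [sum_Y_eq w f hw hf y D D₁ hD₁ m (v t) hm]
    exact Finset.single_le_sum
      (f := fun m : Fin k => (∑ σ, Zc w f y D D₁ m σ * ev (v t) σ) ^ 2)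
      (fun _ _ => sq_nonneg _) (mem_univ m)
  have h2 : c * ∑ t ∈ T, (∑ σ, Yc w y D σ * ev (v t) σ) ^ 2 ≤
      ∑ m : Fin k, c * ∑ t ∈ T, (∑ σ, Zc w f y D D₁ m σ * ev (v t) σ) ^ 2 := by
    rw [← Finset.mul_sum, Finset.sum_comm]
    exact mul_le_mul_of_nonneg_left (Finset.sum_le_sum h1) hc
  have h3 : ∑ m : Fin k, c * ∑ t ∈ T, (∑ σ, Zc w f y D D₁ m σ * ev (v t) σ) ^ 2 ≤
      ∑ _m : Fin k, ((1 + ε) * ((1 / Gm) * (δ ^ 2 * ZZ k w f y D + ZG k w f y D D₀)) + err) := by
    apply Finset.sum_le_sum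
    intro m _
    refine le_trans (hF m) ?_
    have h4 := sum_Z_sq_le w f hw hf y hy D D₁ D₀ δ Gm hD₁ hGm hG hc₁ hc₂ m
    have h5 := mul_le_mul_of_nonneg_left h4 (by linarith : (0 : ℝ) ≤ 1 + ε)
    linarith
  rw [Finset.sum_const, Finset.card_univ, Fintype.card_fin, nsmul_eq_mul] at h3
  have h6 := ZG_le (k := k) w f hw hf y hy D D₀ r hD₀ hr
  have h7 : (k : ℝ) * ((1 + ε) * ((1 / Gm) * (δ ^ 2 * ZZ k w f y D + ZG k w f y D D₀)) + err) ≤
      (k : ℝ) * ((1 + ε) * ((1 / Gm) * (δ ^ 2 * ZZ k w f y D +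
        D₀ ^ (-r) * (1 + th w f y r) ^ k * ZZ k w f y D)) + err) := by
    gcongr
  refine le_trans hg (le_trans h2 (le_trans h3 (le_trans h7 (le_of_eq ?_))))
  field_simp

end Pool.Agent.RW.Alg
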