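import Pool.Agent.RW.Defs
import Pool.Agent.RW.Alg2

/-!
# RW-Bridge: the definitions of `RW.Defs` in terms of `RW.Alg`
-/

namespace Pool.Agent.RW.Alg

open Finset

variable {PP : Finset ℕ} {k : ℕ}

theorem E_eq_ev (a : Fin k → ℤ) (σ : PP → Option (Fin k)) (n : ℤ) :
    E a σ n = ev (fun (p : PP) i => e p (n - a i)) σ := rfl

theorem pr_supp_eq (w : PP → ℝ) (σ : PP → Option (Fin k)) :
    pr w (supp σ) = ∏ p : PP, (σ p).elim 1 (fun _ => w p) := by
  unfold pr supp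
  rw [Finset.prod_filter]
  apply Finset.prod_congr rfl
  intro p _
  rcases h : σ p with _ | i
  · simp
  · simp

theorem mo_eq (σ : PP → Option (Fin k)) :
    ((mo σ : ℕ) : ℝ) = pr (fun p : PP => ((p : ℕ) : ℝ)) (supp σ) := by
  rw [pr_supp_eq]
  unfold mo
  rw [Nat.cast_prod]
  apply Finset.prod_congr rfl
  intro p _
  rcases σ p with _ | i
  · simp
  · simp

theorem ph_eq (σ : PP → Option (Fin k)) :
    ph σ = pr (fun p : PP => ((p : ℕ) : ℝ) - 1) (supp σ) := by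
  rw [pr_supp_eq]
  rfl

/-- value of `e` at an integer not divisible by `p` -/
theorem e_of_not_dvd (p : ℕ) (m : ℤ) (h : ¬ (p : ℤ) ∣ m) : e p m = ((p : ℝ) - 1)⁻¹ := by
  unfold e
  rw [if_neg h, one_div]

theorem one_le_w (hPP : ∀ p ∈ PP, p.Prime) (p : PP) : (1 : ℝ) ≤ ((p : ℕ) : ℝ) := by
  exact_mod_cast (hPP p p.2).one_lt.le

theorem f_pos (hPP : ∀ p ∈ PP, p.Prime) (p : PP) : (0 : ℝ) < ((p : ℕ) : ℝ) - 1 := by
  have h : (1 : ℝ) < ((p : ℕ) : ℝ) := by exact_mod_cast (hPP p p.2).one_lt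
  linarith

end Pool.Agent.RW.Alg
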