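import Mathlib

/-!
# Repelling weights: definitions (project RW, MP_0ec542_nt)

`e p m = -1` if `p` divides `m`, `1 / (p - 1)` otherwise. For a finite set `PP` of primes and
integers `a i`, `i : Fin k`, a function `σ : PP → Option (Fin k)` gives the product
`E a σ n` of the `e p (n - a i)` over the `p` with `σ p = some i`.
-/

open Finset

namespace Pool.Agent.RW

/-- normalised divisibility function of mean zero -/
noncomputable def e (p : ℕ) (m : ℤ) : ℝ := if (p : ℤ) ∣ m then -1 else 1 / ((p : ℝ) - 1)

variable {PP : Finset ℕ} {k : ℕ}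

/-- the product of the `e p (n - a i)` over the `p` with `σ p = some i` -/
noncomputable def E (a : Fin k → ℤ) (σ : PP → Option (Fin k)) (n : ℤ) : ℝ :=
  ∏ p : PP, (σ p).elim 1 (fun i => e p (n - a i))

/-- the product of the primes of the support -/
def mo (σ : PP → Option (Fin k)) : ℕ := ∏ p : PP, (σ p).elim 1 (fun _ => (p : ℕ))

/-- the product of the `p - 1`, `p` in the support -/
noncomputable def ph (σ : PP → Option (Fin k)) : ℝ :=
  ∏ p : PP, (σ p).elim 1 (fun _ => ((p : ℕ) : ℝ) - 1)

end Pool.Agent.RW
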