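import Mathlib
import Pool.Agent.RW.Defs
import Pool.Agent.RW.Avg

/-!
# Near-orthogonality of the functions `E a σ` (project RW, MP_0ec542_nt)
-/

open Finset

namespace Pool.Agent.RW

variable {PP : Finset ℕ} {k : ℕ}

/-! ## Local averages -/

/-- `e p` as a function on `ZMod p` -/
noncomputable def ez (p : ℕ) (x : ZMod p) : ℝ := if x = 0 then -1 else 1 / ((p : ℝ) - 1)

theorem e_eq_ez (p : ℕ) (m : ℤ) : e p m = ez p (m : ZMod p) := by
  unfold e ez
  have h : ((m : ZMod p) = 0) ↔ ((p : ℤ) ∣ m) := ZMod.intCast_zmod_eq_zero_iff_dvd m p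
  by_cases hm : (p : ℤ) ∣ m
  · rw [if_pos hm, if_pos (h.2 hm)]
  · rw [if_neg hm, if_neg (fun h' => hm (h.1 h'))]

theorem ez_eq {p : ℕ} (hp : 1 < p) (x : ZMod p) :
    ez p x = 1 / ((p : ℝ) - 1) - (p : ℝ) / ((p : ℝ) - 1) * (if x = 0 then 1 else 0) := by
  have h1 : (0 : ℝ) < (p : ℝ) - 1 := by
    have : (1 : ℝ) < p := by exact_mod_cast hp
    linarith
  unfold ez
  split_ifs
  · field_simp
    ring
  · simp

theorem abs_ez_le {p : ℕ} (hp : 1 < p) (x : ZMod p) : |ez p x| ≤ 1 := by
  have h1 : (1 : ℝ) ≤ (p : ℝ) - 1 := by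
    have : (2 : ℝ) ≤ p := by exact_mod_cast hp
    linarith
  unfold ez
  split_ifs
  · simp
  · rw [abs_of_nonneg (by positivity), div_le_one (by linarith)]
    exact h1

/-- value of a factor -/
noncomputable def fz (p : ℕ) (a : Fin k → ℤ) (o : Option (Fin k)) (x : ZMod p) : ℝ :=
  o.elim 1 (fun i => ez p (x - (a i : ZMod p)))

theorem abs_fz_le {p : ℕ} (hp : 1 < p) (a : Fin k → ℤ) (o : Option (Fin k)) (x : ZMod p) :
    |fz p a o x| ≤ 1 := by
  cases o with
  | none => simp [fz]
  | some i => exact abs_ez_le hp _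

/-- the average of a product of two factors -/
noncomputable def Ap (p : ℕ) : Option (Fin k) → Option (Fin k) → ℝ
  | none, none => 1
  | none, some _ => 0
  | some _, none => 0
  | some i, some j => if i = j then 1 / ((p : ℝ) - 1) else -(1 / ((p : ℝ) - 1) ^ 2)

theorem avg_fz {p : ℕ} [NeZero p] (hp : 1 < p) (a : Fin k → ℤ)
    (ha : ∀ i j, i ≠ j → ¬ ((p : ℤ) ∣ a i - a j)) (o o' : Option (Fin k)) :
    ∑ x : ZMod p, fz p a o x * fz p a o' x = (p : ℝ) * Ap p o o' := by
  have h1 : (0 : ℝ) < (p : ℝ) - 1 := by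
    have : (1 : ℝ) < p := by exact_mod_cast hp
    linarith
  have hcard : (Finset.univ : Finset (ZMod p)).card = p := by
    rw [Finset.card_univ, ZMod.card]
  have hs : ∀ b : ZMod p, ∑ x : ZMod p, (if x - b = 0 then (1 : ℝ) else 0) = 1 := by
    intro b
    have : ∀ x : ZMod p, (if x - b = 0 then (1 : ℝ) else 0) = if x = b then 1 else 0 := by
      intro x
      simp only [sub_eq_zero]
    rw [sum_congr rfl fun x _ => this x]
    simp
  have hez : ∀ b : ZMod p, ∑ x : ZMod p, ez p (x - b) = 0 := by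
    intro b
    rw [sum_congr rfl fun x _ => ez_eq hp (x - b), sum_sub_distrib, ← mul_sum, hs b, sum_const,
      hcard, nsmul_eq_mul]
    field_simp
    ring
  cases o with
  | none =>
    cases o' with
    | none =>
      simp [fz, Ap]
    | some j =>
      simp only [fz, Ap, Option.elim, one_mul, mul_zero]
      exact hez _
  | some i =>
    cases o' with
    | none =>
      simp only [fz, Ap, Option.elim, mul_one, mul_zero]
      exact hez _
    | some j =>
      simp only [fz, Ap, Option.elim]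
      have hprod : ∀ x : ZMod p, ez p (x - (a i : ZMod p)) * ez p (x - (a j : ZMod p)) =
          (1 / ((p : ℝ) - 1)) ^ 2 - (1 / ((p : ℝ) - 1)) * ((p : ℝ) / ((p : ℝ) - 1)) *
            (if x - (a i : ZMod p) = 0 then 1 else 0) -
          (1 / ((p : ℝ) - 1)) * ((p : ℝ) / ((p : ℝ) - 1)) *
            (if x - (a j : ZMod p) = 0 then 1 else 0) +
          ((p : ℝ) / ((p : ℝ) - 1)) ^ 2 *
            ((if x - (a i : ZMod p) = 0 then 1 else 0) *
              (if x - (a j : ZMod p) = 0 then 1 else 0)) := by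
        intro x
        rw [ez_eq hp, ez_eq hp]
        ring
      rw [sum_congr rfl fun x _ => hprod x, sum_add_distrib, sum_sub_distrib, sum_sub_distrib,
        ← mul_sum, ← mul_sum, ← mul_sum, hs, hs, sum_const, hcard, nsmul_eq_mul]
      by_cases hij : i = j
      · subst hij
        rw [if_pos rfl]
        have h2 : ∑ x : ZMod p, ((if x - (a i : ZMod p) = 0 then (1 : ℝ) else 0) *
            (if x - (a i : ZMod p) = 0 then 1 else 0)) = 1 := by
          have h3 : ∀ x : ZMod p, ((if x - (a i : ZMod p) = 0 then (1 : ℝ) else 0) *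
              (if x - (a i : ZMod p) = 0 then 1 else 0)) =
              (if x - (a i : ZMod p) = 0 then (1 : ℝ) else 0) := by
            intro x
            split_ifs <;> simp
          rw [sum_congr rfl fun x _ => h3 x, hs]
        rw [h2]
        field_simp
        ring
      · rw [if_neg hij]
        have h2 : ∑ x : ZMod p, ((if x - (a i : ZMod p) = 0 then (1 : ℝ) else 0) *
            (if x - (a j : ZMod p) = 0 then 1 else 0)) = 0 := by
          refine sum_eq_zero fun x _ => ?_
          by_cases hx : x - (a i : ZMod p) = 0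
          · rw [if_pos hx, one_mul, if_neg]
            intro hx'
            have h3 : ((a i - a j : ℤ) : ZMod p) = 0 := by
              push_cast
              have := sub_eq_zero.1 hx
              have h4 := sub_eq_zero.1 hx'
              rw [← this, ← h4]
              ring
            exact ha i j hij ((ZMod.intCast_zmod_eq_zero_iff_dvd _ p).1 h3)
          · rw [if_neg hx, zero_mul]
        rw [h2]
        field_simp
        ring

/-! ## Averages of products of two `E` -/

theorem prod_subtype_eq {ι M : Type*} [Fintype ι] [CommMonoid M] (P : ι → Prop)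
    [DecidablePred P] (g : ι → M) (hg : ∀ i, ¬ P i → g i = 1) :
    ∏ i : {i // P i}, g i = ∏ i, g i := by
  rw [← Finset.prod_subtype (univ.filter P) (by simp) g]
  refine prod_subset (filter_subset _ _) fun i _ hi => hg i ?_
  simpa using hi

theorem E_eq (a : Fin k → ℤ) (σ : PP → Option (Fin k)) (n : ℤ) :
    E a σ n = ∏ p : PP, fz (p : ℕ) a (σ p) ((n : ℤ) : ZMod (p : ℕ)) := by
  unfold E
  refine prod_congr rfl fun p _ => ?_
  cases σ p with
  | none => rfl
  | some i =>
    simp only [Option.elim, fz]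
    rw [e_eq_ez]
    push_cast
    rfl

theorem one_le_mo (hp : ∀ p ∈ PP, p.Prime) (σ : PP → Option (Fin k)) : 1 ≤ mo σ := by
  unfold mo
  refine Finset.one_le_prod' fun p _ => ?_
  cases σ p with
  | none => exact le_rfl
  | some i => exact (hp p p.2).one_lt.le

theorem avg_E {M : ℕ} (hp : ∀ p ∈ PP, p.Prime) (hM : ∀ p ∈ PP, Nat.Coprime M p)
    (a : Fin k → ℤ) (ha : ∀ p ∈ PP, ∀ i j, i ≠ j → ¬ ((p : ℤ) ∣ a i - a j))
    (σ σ' : PP → Option (Fin k)) (T : ℕ) (hT : 0 < T) (n0 : ℤ) :
    |(1 / (T : ℝ)) * ∑ t ∈ range T, E a σ (n0 + M * (t : ℕ)) * E a σ' (n0 + M * (t : ℕ)) -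
      ∏ p : PP, Ap (p : ℕ) (σ p) (σ' p)| ≤ 2 * (mo σ * mo σ') / T := by
  classical
  let P : PP → Prop := fun p => σ p ≠ none ∨ σ' p ≠ none
  let ι := {p : PP // P p}
  let b : ι → ℕ := fun i => (i.1 : ℕ)
  have hpp : ∀ i : ι, (b i).Prime := fun i => hp _ i.1.2
  have hne : ∀ i : ι, NeZero (b i) := fun i => ⟨(hpp i).ne_zero⟩
  have hq0 : (∏ i, b i) ≠ 0 := Finset.prod_ne_zero_iff.2 fun i _ => (hpp i).ne_zero
  have : NeZero (∏ i, b i) := ⟨hq0⟩
  set q := ∏ i, b i with hq
  have hc : Pairwise (Function.onFun Nat.Coprime b) := by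
    intro i j hij
    refine (Nat.coprime_primes (hpp i) (hpp j)).2 fun h => hij ?_
    exact Subtype.ext (Subtype.ext h)
  have hMq : Nat.Coprime M q := Nat.Coprime.prod_right fun i _ => hM _ i.1.2
  let f : ∀ i : ι, ZMod (b i) → ℝ := fun i x => fz (b i) a (σ i.1) x * fz (b i) a (σ' i.1) x
  let H : ZMod q → ℝ := fun y =>
    ∏ i, f i (ZMod.castHom (dvd_prod_of_mem b (mem_univ i)) _ y)
  have hf1 : ∀ i x, |f i x| ≤ 1 := by
    intro i x
    show |fz (b i) a (σ i.1) x * fz (b i) a (σ' i.1) x| ≤ 1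
    rw [abs_mul]
    exact mul_le_one₀ (abs_fz_le (hpp i).one_lt _ _ _) (abs_nonneg _)
      (abs_fz_le (hpp i).one_lt _ _ _)
  have hH1 : ∀ y, |H y| ≤ 1 := by
    intro y
    show |∏ i, f i _| ≤ 1
    rw [abs_prod]
    exact prod_le_one (fun i _ => abs_nonneg _) (fun i _ => hf1 i _)
  have hE : ∀ n : ℤ, E a σ n * E a σ' n = H (n : ZMod q) := by
    intro n
    show _ = ∏ i, f i _
    rw [E_eq, E_eq, ← prod_mul_distrib]
    rw [← prod_subtype_eq P (fun p : PP => fz (p : ℕ) a (σ p) ((n : ℤ) : ZMod (p : ℕ)) *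
      fz (p : ℕ) a (σ' p) ((n : ℤ) : ZMod (p : ℕ)))]
    · refine prod_congr rfl fun i _ => ?_
      show _ = fz (b i) a (σ i.1) _ * fz (b i) a (σ' i.1) _
      rw [map_intCast]
    · intro p hp'
      have h1 : σ p = none := by
        by_contra h
        exact hp' (Or.inl h)
      have h2 : σ' p = none := by
        by_contra h
        exact hp' (Or.inr h)
      rw [h1, h2]
      simp [fz]
  have hsumH : ∑ y : ZMod q, H y = (q : ℝ) * ∏ p : PP, Ap (p : ℕ) (σ p) (σ' p) := by
    have h1 : ∑ y : ZMod q, H y = ∏ i, ∑ x : ZMod (b i), f i x := sum_prod_crt b hc f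
    rw [h1]
    have h2 : ∀ i : ι, ∑ x : ZMod (b i), f i x = (b i : ℝ) * Ap (b i) (σ i.1) (σ' i.1) :=
      fun i => avg_fz (hpp i).one_lt a (ha _ i.1.2) _ _
    rw [prod_congr rfl fun i _ => h2 i, prod_mul_distrib]
    congr 1
    · rw [hq]
      push_cast
      rfl
    · refine prod_subtype_eq P (fun p : PP => Ap (p : ℕ) (σ p) (σ' p)) ?_
      intro p hp'
      have h1 : σ p = none := by
        by_contra h
        exact hp' (Or.inl h)
      have h2 : σ' p = none := by
        by_contra h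
        exact hp' (Or.inr h)
      rw [h1, h2]
      rfl
  have hqle : q ≤ mo σ * mo σ' := by
    rw [hq]
    unfold mo
    rw [← prod_mul_distrib]
    rw [← Finset.prod_subtype (univ.filter P) (by simp) (fun p : PP => (p : ℕ))]
    calc ∏ p ∈ univ.filter P, (p : ℕ)
        ≤ ∏ p ∈ univ.filter P, ((σ p).elim 1 (fun _ => (p : ℕ)) *
          (σ' p).elim 1 (fun _ => (p : ℕ))) := by
          refine prod_le_prod' fun p hp' => ?_
          have h0 := (hp p p.2).one_lt.le
          rw [mem_filter] at hp'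
          rcases hp'.2 with h | h
          · obtain ⟨i, hi⟩ := Option.ne_none_iff_exists'.1 h
            rw [hi]
            cases σ' p with
            | none => simp
            | some j => exact Nat.le_mul_of_pos_right _ (by simpa using (hp p p.2).pos)
          · obtain ⟨i, hi⟩ := Option.ne_none_iff_exists'.1 h
            rw [hi]
            cases σ p with
            | none => simp
            | some j => exact Nat.le_mul_of_pos_left _ (by simpa using (hp p p.2).pos)
      _ ≤ ∏ p : PP, ((σ p).elim 1 (fun _ => (p : ℕ)) * (σ' p).elim 1 (fun _ => (p : ℕ))) := by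
          refine prod_le_prod_of_subset_of_one_le' (filter_subset _ _) fun p _ _ => ?_
          have h0 := (hp p p.2).one_lt.le
          cases σ p <;> cases σ' p <;> simp [Nat.one_le_iff_ne_zero, (hp p p.2).ne_zero]
  have hT0 : (0 : ℝ) < T := by exact_mod_cast hT
  have hqpos : (0 : ℝ) < q := by exact_mod_cast Nat.pos_of_ne_zero hq0
  have key := sum_range_sub H hH1 hMq T n0
  rw [hsumH] at key
  have e1 : ∑ t ∈ range T, E a σ (n0 + M * (t : ℕ)) * E a σ' (n0 + M * (t : ℕ)) =
      ∑ t ∈ range T, H ((n0 + M * (t : ℕ) : ℤ) : ZMod q) := sum_congr rfl fun t _ => hE _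
  rw [e1]
  have e2 : (T : ℝ) / q * ((q : ℝ) * ∏ p : PP, Ap (p : ℕ) (σ p) (σ' p)) =
      T * ∏ p : PP, Ap (p : ℕ) (σ p) (σ' p) := by
    field_simp
  rw [e2] at key
  have e3 : (1 / (T : ℝ)) * ∑ t ∈ range T, H ((n0 + M * (t : ℕ) : ℤ) : ZMod q) -
      ∏ p : PP, Ap (p : ℕ) (σ p) (σ' p) = (1 / (T : ℝ)) *
      (∑ t ∈ range T, H ((n0 + M * (t : ℕ) : ℤ) : ZMod q) -
        T * ∏ p : PP, Ap (p : ℕ) (σ p) (σ' p)) := by
    field_simp
  rw [e3, abs_mul, abs_of_nonneg (by positivity)]
  have e4 : (q : ℝ) ≤ mo σ * mo σ' := by exact_mod_cast hqle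
  calc (1 / (T : ℝ)) * |∑ t ∈ range T, H ((n0 + M * (t : ℕ) : ℤ) : ZMod q) -
        T * ∏ p : PP, Ap (p : ℕ) (σ p) (σ' p)| ≤ (1 / (T : ℝ)) * (2 * q) :=
        mul_le_mul_of_nonneg_left key (by positivity)
    _ ≤ (1 / (T : ℝ)) * (2 * (mo σ * mo σ')) := by
        refine mul_le_mul_of_nonneg_left ?_ (by positivity)
        linarith
    _ = 2 * (mo σ * mo σ') / T := by ring

end Pool.Agent.RW
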