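import Mathlib
import Pool.Agent.RW.Gram

/-!
# Near-orthogonality: the quadratic form (project RW, MP_0ec542_nt)
-/

open Finset

namespace Pool.Agent.RW

variable {PP : Finset ℕ} {k : ℕ}

/-- Schur test -/
theorem quad {ι : Type*} [Fintype ι] [DecidableEq ι] (A : ι → ι → ℝ) (hA : ∀ i j, A i j = A j i)
    (Y d : ι → ℝ) (hd0 : ∀ i, 0 ≤ d i) (hd : ∀ i, A i i = d i) {ε : ℝ}
    (hrow : ∀ i, Y i ≠ 0 → ∑ j, |A i j| ≤ (1 + ε) * d i) :
    |∑ i, ∑ j, Y i * Y j * A i j - ∑ i, Y i ^ 2 * d i| ≤ ε * ∑ i, Y i ^ 2 * d i := by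
  have h1 : ∀ i, ∑ j, Y i * Y j * A i j =
      Y i ^ 2 * d i + ∑ j ∈ univ.erase i, Y i * Y j * A i j := by
    intro i
    rw [← Finset.add_sum_erase univ (fun j => Y i * Y j * A i j) (mem_univ i), hd i]
    ring
  have h2 : ∑ i, ∑ j, Y i * Y j * A i j - ∑ i, Y i ^ 2 * d i =
      ∑ i, ∑ j ∈ univ.erase i, Y i * Y j * A i j := by
    rw [sum_congr rfl fun i _ => h1 i, sum_add_distrib]
    ring
  rw [h2]
  have h3 : |∑ i, ∑ j ∈ univ.erase i, Y i * Y j * A i j| ≤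
      ∑ i, ∑ j ∈ univ.erase i, (|A i j| * Y i ^ 2 / 2 + |A i j| * Y j ^ 2 / 2) := by
    refine (abs_sum_le_sum_abs _ _).trans (sum_le_sum fun i _ => ?_)
    refine (abs_sum_le_sum_abs _ _).trans (sum_le_sum fun j _ => ?_)
    rw [abs_mul, abs_mul]
    have h4 : |Y i| * |Y j| ≤ (Y i ^ 2 + Y j ^ 2) / 2 := by
      nlinarith [sq_nonneg (|Y i| - |Y j|), sq_abs (Y i), sq_abs (Y j)]
    have h5 : 0 ≤ |A i j| := abs_nonneg _
    nlinarith
  have h6 : ∀ f : ι → ι → ℝ, ∑ i, ∑ j ∈ univ.erase i, f i j =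
      ∑ i, ∑ j ∈ univ.erase i, f j i := by
    intro f
    rw [Finset.sum_sigma', Finset.sum_sigma']
    refine sum_bij (fun x _ => ⟨x.2, x.1⟩) ?_ ?_ ?_ ?_
    · rintro ⟨i, j⟩ h
      simp only [mem_sigma, mem_univ, mem_erase, ne_eq, true_and, and_true] at h ⊢
      exact fun h' => h h'.symm
    · rintro ⟨i, j⟩ _ ⟨i', j'⟩ _ h
      simp only [Sigma.mk.injEq, heq_eq_eq] at h
      rw [h.1, h.2]
    · rintro ⟨i, j⟩ h
      refine ⟨⟨j, i⟩, ?_, rfl⟩
      simp only [mem_sigma, mem_univ, mem_erase, ne_eq, true_and, and_true] at h ⊢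
      exact fun h' => h h'.symm
    · rintro ⟨i, j⟩ _
      rfl
  have h7 : ∑ i, ∑ j ∈ univ.erase i, (|A i j| * Y i ^ 2 / 2 + |A i j| * Y j ^ 2 / 2) =
      ∑ i, Y i ^ 2 * ∑ j ∈ univ.erase i, |A i j| := by
    have h8 : ∑ i, ∑ j ∈ univ.erase i, |A i j| * Y j ^ 2 / 2 =
        ∑ i, ∑ j ∈ univ.erase i, |A i j| * Y i ^ 2 / 2 := by
      rw [h6 fun i j => |A i j| * Y j ^ 2 / 2]
      refine sum_congr rfl fun i _ => sum_congr rfl fun j _ => ?_
      rw [hA j i]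
    simp only [sum_add_distrib]
    rw [h8, ← sum_add_distrib]
    refine sum_congr rfl fun i _ => ?_
    rw [← sum_add_distrib, mul_sum]
    refine sum_congr rfl fun j _ => ?_
    ring
  refine h3.trans ?_
  rw [h7, mul_sum]
  refine sum_le_sum fun i _ => ?_
  by_cases hi : Y i = 0
  · rw [hi]
    simp
  · have h9 := hrow i hi
    rw [← Finset.add_sum_erase univ (fun j => |A i j|) (mem_univ i), hd i,
      abs_of_nonneg (hd0 i)] at h9
    have h10 : ∑ j ∈ univ.erase i, |A i j| ≤ ε * d i := by linarith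
    calc Y i ^ 2 * ∑ j ∈ univ.erase i, |A i j| ≤ Y i ^ 2 * (ε * d i) :=
          mul_le_mul_of_nonneg_left h10 (sq_nonneg _)
      _ = ε * (Y i ^ 2 * d i) := by ring

theorem ph_pos (hp : ∀ p ∈ PP, p.Prime) (σ : PP → Option (Fin k)) : 0 < ph σ := by
  unfold ph
  refine prod_pos fun p _ => ?_
  cases σ p with
  | none => exact one_pos
  | some i =>
    have : (1 : ℝ) < (p : ℕ) := by exact_mod_cast (hp p p.2).one_lt
    show 0 < ((p : ℕ) : ℝ) - 1
    linarith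

theorem Ap_symm (p : ℕ) (o o' : Option (Fin k)) : Ap p o o' = Ap p o' o := by
  cases o <;> cases o'
  · rfl
  · rfl
  · rfl
  · simp only [Ap]
    by_cases h : (‹Fin k›) = (‹Fin k›) <;> simp [eq_comm]

theorem sum_abs_Ap {p : ℕ} (hp : 1 < p) (o : Option (Fin k)) :
    ∑ o' : Option (Fin k), |Ap p o o'| =
      o.elim 1 (fun _ => 1 / ((p : ℝ) - 1) * (1 + ((k : ℝ) - 1) / ((p : ℝ) - 1))) := by
  have h1 : (0 : ℝ) < (p : ℝ) - 1 := by
    have : (1 : ℝ) < p := by exact_mod_cast hp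
    linarith
  rw [Fintype.sum_option]
  cases o with
  | none => simp [Ap]
  | some i =>
    simp only [Ap, Option.elim, abs_zero, zero_add]
    rw [← Finset.add_sum_erase univ _ (mem_univ i)]
    rw [if_pos rfl, abs_of_nonneg (by positivity)]
    have h2 : ∀ j ∈ univ.erase i, |if i = j then 1 / ((p : ℝ) - 1) else
        -(1 / ((p : ℝ) - 1) ^ 2)| = 1 / ((p : ℝ) - 1) ^ 2 := by
      intro j hj
      rw [if_neg (ne_of_mem_erase hj).symm, abs_neg, abs_of_nonneg (by positivity)]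
    rw [sum_congr rfl h2, sum_const, card_erase_of_mem (mem_univ i), card_univ, Fintype.card_fin,
      nsmul_eq_mul]
    have hk : 1 ≤ k := by
      have := i.2
      omega
    rw [Nat.cast_sub hk]
    field_simp
    push_cast
    ring

/-- NEAR-ORTHOGONALITY -/
theorem gram {M : ℕ} (hp : ∀ p ∈ PP, p.Prime) (hM : ∀ p ∈ PP, Nat.Coprime M p)
    (a : Fin k → ℤ) (ha : ∀ p ∈ PP, ∀ i j, i ≠ j → ¬ ((p : ℤ) ∣ a i - a j))
    (T : ℕ) (hT : 0 < T) (n0 : ℤ) (Y : (PP → Option (Fin k)) → ℝ) (hY : ∀ σ, |Y σ| ≤ 1)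
    {D : ℝ} (hYD : ∀ σ, Y σ ≠ 0 → (mo σ : ℝ) ≤ D) {ε : ℝ}
    (hε : ∀ σ : PP → Option (Fin k), (mo σ : ℝ) ≤ D →
      ∏ p : PP, (σ p).elim 1 (fun _ => 1 + ((k : ℝ) - 1) / (((p : ℕ) : ℝ) - 1)) ≤ 1 + ε)
    {C : ℝ} (hC : (((univ : Finset (PP → Option (Fin k))).filter
      (fun σ => (mo σ : ℝ) ≤ D)).card : ℝ) ≤ C) :
    |(1 / (T : ℝ)) * ∑ t ∈ range T, (∑ σ, Y σ * E a σ (n0 + M * (t : ℕ))) ^ 2 -
      ∑ σ, Y σ ^ 2 / ph σ| ≤ ε * ∑ σ, Y σ ^ 2 / ph σ + 2 * C ^ 2 * D ^ 2 / T := by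
  classical
  have hT0 : (0 : ℝ) < T := by exact_mod_cast hT
  set A : (PP → Option (Fin k)) → (PP → Option (Fin k)) → ℝ := fun σ σ' =>
    ∏ p : PP, Ap (p : ℕ) (σ p) (σ' p) with hAdef
  have hAsymm : ∀ σ σ', A σ σ' = A σ' σ := fun σ σ' =>
    prod_congr rfl fun p _ => Ap_symm _ _ _
  have hAdiag : ∀ σ, A σ σ = 1 / ph σ := by
    intro σ
    show ∏ p : PP, Ap (p : ℕ) (σ p) (σ p) = 1 / ph σ
    unfold ph
    rw [one_div, ← prod_inv_distrib]
    refine prod_congr rfl fun p _ => ?_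
    cases σ p with
    | none => simp [Ap]
    | some i => simp [Ap]
  have hArow : ∀ σ, Y σ ≠ 0 → ∑ σ', |A σ σ'| ≤ (1 + ε) * (1 / ph σ) := by
    intro σ hσ
    have h1 : ∑ σ', |A σ σ'| = ∏ p : PP, ∑ o' : Option (Fin k), |Ap (p : ℕ) (σ p) o'| := by
      rw [Finset.prod_univ_sum, Fintype.piFinset_univ]
      refine sum_congr rfl fun σ' _ => ?_
      show |∏ p : PP, Ap (p : ℕ) (σ p) (σ' p)| = _
      rw [abs_prod]
    have h2 : ∏ p : PP, ∑ o' : Option (Fin k), |Ap (p : ℕ) (σ p) o'| =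
        (1 / ph σ) * ∏ p : PP, (σ p).elim 1
          (fun _ => 1 + ((k : ℝ) - 1) / (((p : ℕ) : ℝ) - 1)) := by
      unfold ph
      rw [one_div, ← prod_inv_distrib, ← prod_mul_distrib]
      refine prod_congr rfl fun p _ => ?_
      rw [sum_abs_Ap (hp p p.2).one_lt]
      cases σ p with
      | none => simp
      | some i => simp
    rw [h1, h2, mul_comm (1 + ε)]
    exact mul_le_mul_of_nonneg_left (hε σ (hYD σ hσ)) (by
      have := ph_pos hp σ
      positivity)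
  have hq := quad A hAsymm Y (fun σ => 1 / ph σ) (fun σ => by
    have := ph_pos hp σ
    positivity) hAdiag hArow
  have hsum : ∑ σ, Y σ ^ 2 * (1 / ph σ) = ∑ σ, Y σ ^ 2 / ph σ :=
    sum_congr rfl fun σ _ => by ring
  rw [hsum] at hq
  -- expansion of the square
  have hexp : (1 / (T : ℝ)) * ∑ t ∈ range T, (∑ σ, Y σ * E a σ (n0 + M * (t : ℕ))) ^ 2 =
      ∑ σ, ∑ σ', Y σ * Y σ' * ((1 / (T : ℝ)) * ∑ t ∈ range T,
        E a σ (n0 + M * (t : ℕ)) * E a σ' (n0 + M * (t : ℕ))) := by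
    have h1 : ∀ t ∈ range T, (∑ σ, Y σ * E a σ (n0 + M * (t : ℕ))) ^ 2 =
        ∑ σ, ∑ σ', Y σ * Y σ' * (E a σ (n0 + M * (t : ℕ)) * E a σ' (n0 + M * (t : ℕ))) := by
      intro t _
      rw [sq, sum_mul_sum]
      refine sum_congr rfl fun σ _ => sum_congr rfl fun σ' _ => ?_
      ring
    rw [sum_congr rfl h1, sum_comm, mul_sum]
    refine sum_congr rfl fun σ _ => ?_
    rw [sum_comm, mul_sum]
    refine sum_congr rfl fun σ' _ => ?_
    rw [← mul_sum]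
    ring
  have herr : |∑ σ, ∑ σ', Y σ * Y σ' * ((1 / (T : ℝ)) * ∑ t ∈ range T,
        E a σ (n0 + M * (t : ℕ)) * E a σ' (n0 + M * (t : ℕ))) -
      ∑ σ, ∑ σ', Y σ * Y σ' * A σ σ'| ≤ 2 * C ^ 2 * D ^ 2 / T := by
    rw [← sum_sub_distrib]
    have h1 : ∀ σ, ∑ σ', Y σ * Y σ' * ((1 / (T : ℝ)) * ∑ t ∈ range T,
        E a σ (n0 + M * (t : ℕ)) * E a σ' (n0 + M * (t : ℕ))) - ∑ σ', Y σ * Y σ' * A σ σ' =
        ∑ σ', Y σ * Y σ' * ((1 / (T : ℝ)) * ∑ t ∈ range T,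
        E a σ (n0 + M * (t : ℕ)) * E a σ' (n0 + M * (t : ℕ)) - A σ σ') := by
      intro σ
      rw [← sum_sub_distrib]
      refine sum_congr rfl fun σ' _ => ?_
      ring
    rw [sum_congr rfl fun σ _ => h1 σ]
    refine (abs_sum_le_sum_abs _ _).trans ?_
    have h2 : ∀ σ ∈ (univ : Finset (PP → Option (Fin k))),
        |∑ σ', Y σ * Y σ' * ((1 / (T : ℝ)) * ∑ t ∈ range T,
        E a σ (n0 + M * (t : ℕ)) * E a σ' (n0 + M * (t : ℕ)) - A σ σ')| ≤
        (if (mo σ : ℝ) ≤ D then C * (2 * D ^ 2 / T) else 0) := by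
      intro σ _
      refine (abs_sum_le_sum_abs _ _).trans ?_
      by_cases hσ : (mo σ : ℝ) ≤ D
      · rw [if_pos hσ]
        have h3 : ∀ σ' ∈ (univ : Finset (PP → Option (Fin k))),
            |Y σ * Y σ' * ((1 / (T : ℝ)) * ∑ t ∈ range T,
            E a σ (n0 + M * (t : ℕ)) * E a σ' (n0 + M * (t : ℕ)) - A σ σ')| ≤
            (if (mo σ' : ℝ) ≤ D then 2 * D ^ 2 / T else 0) := by
          intro σ' _
          by_cases hσ' : (mo σ' : ℝ) ≤ D
          · rw [if_pos hσ', abs_mul, abs_mul]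
            have h4 := avg_E hp hM a ha σ σ' T hT n0
            have h5 : |Y σ| * |Y σ'| ≤ 1 := mul_le_one₀ (hY σ) (abs_nonneg _) (hY σ')
            have h6 : (2 : ℝ) * (mo σ * mo σ') / T ≤ 2 * D ^ 2 / T := by
              have h0 : (0 : ℝ) ≤ mo σ := by positivity
              have h0' : (0 : ℝ) ≤ mo σ' := by positivity
              have h7 : (mo σ : ℝ) * mo σ' ≤ D * D := mul_le_mul hσ hσ' h0' (h0.trans hσ)
              refine div_le_div_of_nonneg_right ?_ hT0.le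
              nlinarith
            calc |Y σ| * |Y σ'| * |(1 / (T : ℝ)) * ∑ t ∈ range T,
                E a σ (n0 + M * (t : ℕ)) * E a σ' (n0 + M * (t : ℕ)) - A σ σ'|
                ≤ 1 * (2 * (mo σ * mo σ') / T) :=
                  mul_le_mul h5 h4 (abs_nonneg _) zero_le_one
              _ ≤ 2 * D ^ 2 / T := by linarith
          · rw [if_neg hσ']
            have h4 : Y σ' = 0 := by
              by_contra h
              exact hσ' (hYD σ' h)
            rw [h4]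
            simp
        refine (sum_le_sum h3).trans ?_
        rw [← sum_filter, sum_const, nsmul_eq_mul]
        exact mul_le_mul_of_nonneg_right hC (by positivity)
      · rw [if_neg hσ]
        have h4 : Y σ = 0 := by
          by_contra h
          exact hσ (hYD σ h)
        rw [h4]
        simp
    refine (sum_le_sum h2).trans ?_
    rw [← sum_filter, sum_const, nsmul_eq_mul]
    have hC0 : 0 ≤ C := le_trans (by positivity) hC
    calc _ ≤ C * (C * (2 * D ^ 2 / T)) := mul_le_mul_of_nonneg_right hC (by positivity)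
      _ = 2 * C ^ 2 * D ^ 2 / T := by ring
  rw [hexp]
  calc _ = |(∑ σ, ∑ σ', Y σ * Y σ' * ((1 / (T : ℝ)) * ∑ t ∈ range T,
        E a σ (n0 + M * (t : ℕ)) * E a σ' (n0 + M * (t : ℕ))) -
      ∑ σ, ∑ σ', Y σ * Y σ' * A σ σ') + (∑ σ, ∑ σ', Y σ * Y σ' * A σ σ' -
        ∑ σ, Y σ ^ 2 / ph σ)| := by
        congr 1
        ring
    _ ≤ _ := abs_add_le _ _
    _ ≤ 2 * C ^ 2 * D ^ 2 / T + ε * ∑ σ, Y σ ^ 2 / ph σ := add_le_add herr hq
    _ = _ := by ring

end Pool.Agent.RW
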