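import Mathlib

/-!
# Repelling weights: the weight function (project RW, MP_0ec542_nt)

Finite sums over the subsets `S` of a finite set `PP` of primes: `pro S` is the product of the
elements of `S`, `fi S` the product of the `p - 1`; the weight is `y S = 1` for `S = ∅`,
`- c0 / log (pro S)` for nonempty `S` with `pro S ≤ S1`, and `0` otherwise, with `c0 = 1 / H1`.
-/

open Finset Real

namespace Pool.Agent.RW

/-- product of the elements of `S` -/
noncomputable def pro (S : Finset ℕ) : ℝ := ∏ p ∈ S, (p : ℝ)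

/-- product of the `p - 1` for `p` in `S` -/
noncomputable def fi (S : Finset ℕ) : ℝ := ∏ p ∈ S, ((p : ℝ) - 1)

open Classical in
/-- the normalising sum -/
noncomputable def H1 (PP : Finset ℕ) (S1 : ℝ) : ℝ :=
  ∑ S ∈ PP.powerset with S.Nonempty ∧ pro S ≤ S1, 1 / (fi S * log (pro S))

/-- the constant of the weights -/
noncomputable def c0 (PP : Finset ℕ) (S1 : ℝ) : ℝ := 1 / H1 PP S1

open Classical in
/-- the weights -/
noncomputable def y (PP : Finset ℕ) (S1 : ℝ) (S : Finset ℕ) : ℝ :=
  if S = ∅ then 1 else if pro S ≤ S1 then -(c0 PP S1 / log (pro S)) else 0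

open Classical in
/-- the sum of the weights over the `S` disjoint from `U` with `pro S * pro U ≤ D` -/
noncomputable def cU (PP : Finset ℕ) (S1 D : ℝ) (U : Finset ℕ) : ℝ :=
  ∑ S ∈ PP.powerset with Disjoint S U ∧ pro S * pro U ≤ D, y PP S1 S / fi S

theorem pro_empty : pro ∅ = 1 := by simp [pro]

theorem fi_empty : fi ∅ = 1 := by simp [fi]

theorem pro_pos {S : Finset ℕ} (h : ∀ p ∈ S, Nat.Prime p) : 0 < pro S :=
  prod_pos fun p hp => by exact_mod_cast (h p hp).pos

theorem one_le_pro {S : Finset ℕ} (h : ∀ p ∈ S, Nat.Prime p) : 1 ≤ pro S := by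
  have h1 : ∏ p ∈ S, (1 : ℝ) ≤ ∏ p ∈ S, (p : ℝ) :=
    prod_le_prod (fun _ _ => zero_le_one) fun p hp => by exact_mod_cast (h p hp).one_lt.le
  simpa [pro] using h1

theorem le_pro {S : Finset ℕ} (h : ∀ p ∈ S, Nat.Prime p) {p : ℕ} (hp : p ∈ S) :
    (p : ℝ) ≤ pro S := by
  have h1 : pro S = p * pro (S.erase p) := by
    rw [pro, pro, mul_prod_erase S (fun p : ℕ => (p : ℝ)) hp]
  rw [h1]
  have h2 := one_le_pro (S := S.erase p) fun q hq => h q (mem_of_mem_erase hq)
  have h3 : (0 : ℝ) ≤ p := by positivity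
  nlinarith

theorem fi_pos {S : Finset ℕ} (h : ∀ p ∈ S, Nat.Prime p) : 0 < fi S :=
  prod_pos fun p hp => by
    have : (2 : ℝ) ≤ p := by exact_mod_cast (h p hp).two_le
    linarith

theorem log_pro_nonneg {S : Finset ℕ} (h : ∀ p ∈ S, Nat.Prime p) : 0 ≤ log (pro S) :=
  log_nonneg (one_le_pro h)

theorem log_pro_pos {S : Finset ℕ} (h : ∀ p ∈ S, Nat.Prime p) (hS : S.Nonempty) :
    0 < log (pro S) := by
  obtain ⟨p, hp⟩ := hS
  have h1 := le_pro h hp
  have h2 : (2 : ℝ) ≤ p := by exact_mod_cast (h p hp).two_le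
  exact log_pos (by linarith)

/-- the sum of `1 / fi S` over the `S` in `PP` with `pro S ≤ t` -/
theorem sum_fi_ge {PP Q : Finset ℕ} (hPP : ∀ p ∈ PP, Nat.Prime p) (hQ : ∀ q ∈ Q, Nat.Prime q)
    (hd : Disjoint PP Q) {t : ℝ} (ht : 1 ≤ t)
    (hcov : ∀ p : ℕ, Nat.Prime p → (p : ℝ) ≤ t → p ∈ PP ∨ p ∈ Q) :
    (∏ q ∈ Q, (1 - 1 / (q : ℝ))) * log t ≤
      ∑ S ∈ PP.powerset with pro S ≤ t, 1 / fi S := by
  classical
  set N := ⌊t⌋₊ with hN
  have ht0 : 0 ≤ t := by linarith
  have hN1 : 1 ≤ N := by rw [hN, Nat.one_le_floor_iff]; exact ht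
  -- the harmonic sum
  have hharm : log t ≤ ∑ n ∈ Icc 1 N, (1 : ℝ) / n := by
    have h1 : t ≤ ((N + 1 : ℕ) : ℝ) := by
      have := Nat.lt_floor_add_one t
      push_cast
      exact this.le
    have h2 : log t ≤ log ((N + 1 : ℕ) : ℝ) := log_le_log (by linarith) h1
    have h3 := log_add_one_le_harmonic N
    have h4 : ((harmonic N : ℚ) : ℝ) = ∑ n ∈ Icc 1 N, (1 : ℝ) / n := by
      rw [harmonic_eq_sum_Icc]
      push_cast
      simp [one_div]
    rw [← h4]
    refine h2.trans ?_
    push_cast at h3 ⊢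
    exact h3
  -- the set of prime divisors in PP
  set f : ℕ → Finset ℕ := fun n => PP.filter (fun p => p ∣ n) with hf
  have hprod : ∀ n ∈ Icc 1 N, (∏ p ∈ f n, p) ∣ n := by
    intro n _
    refine prod_primes_dvd n (fun p hp => ?_) (fun p hp => ?_)
    · exact (hPP p (mem_filter.1 hp).1).prime
    · exact (mem_filter.1 hp).2
  have hproR : ∀ n, pro (f n) = ((∏ p ∈ f n, p : ℕ) : ℝ) := fun n => by
    rw [pro]; push_cast; rfl
  have hmaps : ∀ n ∈ Icc 1 N, f n ∈ PP.powerset.filter (fun S => pro S ≤ t) := by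
    intro n hn
    refine mem_filter.2 ⟨mem_powerset.2 (filter_subset _ _), ?_⟩
    have h1 := Nat.le_of_dvd (mem_Icc.1 hn).1 (hprod n hn)
    rw [hproR]
    calc ((∏ p ∈ f n, p : ℕ) : ℝ) ≤ (n : ℝ) := by exact_mod_cast h1
      _ ≤ (N : ℝ) := by exact_mod_cast (mem_Icc.1 hn).2
      _ ≤ t := Nat.floor_le ht0
  rw [← sum_fiberwise_of_maps_to hmaps] at hharm
  set V := ∏ q ∈ Q, (1 - 1 / (q : ℝ)) with hV
  have hVpos : 0 < V := prod_pos fun q hq => by
    have h2 : (2 : ℝ) ≤ q := by exact_mod_cast (hQ q hq).two_le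
    have : 1 / (q : ℝ) ≤ 1 / 2 := one_div_le_one_div_of_le (by norm_num) h2
    linarith
  calc V * log t ≤ V * ∑ S ∈ PP.powerset with pro S ≤ t, ∑ n ∈ Icc 1 N with f n = S, (1 : ℝ) / n :=
        mul_le_mul_of_nonneg_left hharm hVpos.le
    _ ≤ V * ∑ S ∈ PP.powerset with pro S ≤ t, V⁻¹ * (1 / fi S) := by
        refine mul_le_mul_of_nonneg_left (sum_le_sum fun S hS => ?_) hVpos.le
        have hSP : S ⊆ PP := mem_powerset.1 (mem_filter.1 hS).1
        have hSprime : ∀ p ∈ S, Nat.Prime p := fun p hp => hPP p (hSP hp)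
        have hdS : Disjoint S Q := disjoint_of_subset_left hSP hd
        -- the Euler product
        let g : ℕ →* ℝ :=
          { toFun := fun n => (n : ℝ)⁻¹
            map_one' := by simp
            map_mul' := fun a b => by push_cast; rw [mul_inv] }
        have hg : ∀ {p : ℕ}, p.Prime → ‖g p‖ < 1 := by
          intro p hp
          have h2 : (1 : ℝ) < p := by exact_mod_cast hp.one_lt
          show ‖((p : ℝ)⁻¹)‖ < 1
          rw [norm_inv, Real.norm_of_nonneg (by positivity)]
          exact inv_lt_one_of_one_lt₀ h2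
        obtain ⟨hs1, hs2⟩ :=
          EulerProduct.summable_and_hasSum_factoredNumbers_prod_filter_prime_geometric hg (S ∪ Q)
        have hpr : (S ∪ Q).filter Nat.Prime = S ∪ Q := by
          refine filter_true_of_mem fun p hp => ?_
          rcases mem_union.1 hp with h | h
          · exact hSprime p h
          · exact hQ p h
        rw [hpr, prod_union hdS] at hs2
        have hval : (∏ p ∈ S, (1 - g p)⁻¹) * ∏ q ∈ Q, (1 - g q)⁻¹ = pro S * (1 / fi S) * V⁻¹ := by
          congr 1
          · rw [pro, fi, one_div, ← prod_inv_distrib, ← prod_mul_distrib]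
            refine prod_congr rfl fun p hp => ?_
            have h2 : (2 : ℝ) ≤ p := by exact_mod_cast (hSprime p hp).two_le
            have h3 : (p : ℝ) - 1 ≠ 0 := by linarith
            show (1 - (p : ℝ)⁻¹)⁻¹ = _
            have h4 : (p : ℝ) ≠ 0 := by linarith
            field_simp
          · rw [hV, ← prod_inv_distrib]
            refine prod_congr rfl fun p hp => ?_
            show (1 - (p : ℝ)⁻¹)⁻¹ = _
            rw [one_div]
        rw [hval] at hs2
        have hproS : 0 < pro S := pro_pos hSprime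
        -- compare the finite sum with the series
        have hs3 : HasSum (Set.indicator (Nat.factoredNumbers (S ∪ Q)) fun m : ℕ => (m : ℝ)⁻¹)
            (pro S * (1 / fi S) * V⁻¹) := hasSum_subtype_iff_indicator.1 hs2
        set P : ℕ := ∏ p ∈ S, p with hP
        have hPpos : 0 < P := prod_pos fun p hp => (hSprime p hp).pos
        have hPR : pro S = (P : ℝ) := by rw [hP, pro]; push_cast; rfl
        set F := (Icc 1 N).filter (fun n => f n = S) with hF
        have hdvd : ∀ n ∈ F, P ∣ n := by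
          intro n hn
          obtain ⟨h1, h2⟩ := mem_filter.1 hn
          have := hprod n h1
          rw [h2] at this
          exact this
        have hmem : ∀ n ∈ F, n / P ∈ Nat.factoredNumbers (S ∪ Q) := by
          intro n hn
          obtain ⟨h1, h2⟩ := mem_filter.1 hn
          have hn1 : 1 ≤ n := (mem_Icc.1 h1).1
          rw [Nat.mem_factoredNumbers']
          intro p hp hpd
          have hpn : p ∣ n := hpd.trans (Nat.div_dvd_of_dvd (hdvd n hn))
          have hpt : (p : ℝ) ≤ t := by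
            calc (p : ℝ) ≤ (n : ℝ) := by exact_mod_cast Nat.le_of_dvd hn1 hpn
              _ ≤ (N : ℝ) := by exact_mod_cast (mem_Icc.1 h1).2
              _ ≤ t := Nat.floor_le ht0
          rcases hcov p hp hpt with h | h
          · refine mem_union_left _ ?_
            rw [← h2]
            exact mem_filter.2 ⟨h, hpn⟩
          · exact mem_union_right _ h
        have hinj : Set.InjOn (fun n => n / P) (F : Set ℕ) := by
          intro a ha b hb hab
          have h1 := Nat.div_mul_cancel (hdvd a ha)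
          have h2 := Nat.div_mul_cancel (hdvd b hb)
          have h3 : a / P = b / P := hab
          rw [← h1, ← h2, h3]
        have hle : ∑ m ∈ F.image (fun n => n / P),
            Set.indicator (Nat.factoredNumbers (S ∪ Q)) (fun m : ℕ => (m : ℝ)⁻¹) m ≤
            pro S * (1 / fi S) * V⁻¹ := by
          refine sum_le_hasSum _ (fun m _ => ?_) hs3
          exact Set.indicator_nonneg (fun m _ => by positivity) m
        rw [sum_image hinj] at hle
        have heq : ∑ n ∈ F, (1 : ℝ) / n = (pro S)⁻¹ * ∑ n ∈ F,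
            Set.indicator (Nat.factoredNumbers (S ∪ Q)) (fun m : ℕ => (m : ℝ)⁻¹) (n / P) := by
          rw [mul_sum]
          refine sum_congr rfl fun n hn => ?_
          rw [Set.indicator_of_mem (hmem n hn), hPR]
          have h1 := Nat.div_mul_cancel (hdvd n hn)
          have h2 : (n : ℝ) = ((n / P : ℕ) : ℝ) * P := by
            exact_mod_cast h1.symm
          rw [h2, ← mul_inv, one_div, mul_comm]
        rw [heq]
        calc (pro S)⁻¹ * ∑ n ∈ F,
              Set.indicator (Nat.factoredNumbers (S ∪ Q)) (fun m : ℕ => (m : ℝ)⁻¹) (n / P)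
            ≤ (pro S)⁻¹ * (pro S * (1 / fi S) * V⁻¹) :=
              mul_le_mul_of_nonneg_left hle (inv_nonneg.2 hproS.le)
          _ = V⁻¹ * (1 / fi S) := by field_simp
    _ = ∑ S ∈ PP.powerset with pro S ≤ t, 1 / fi S := by
        rw [mul_sum]
        refine sum_congr rfl fun S _ => ?_
        rw [← mul_assoc, mul_inv_cancel₀ hVpos.ne', one_mul]

open Classical in
/-- lower bound for the normalising sum -/
theorem H1_ge {PP : Finset ℕ} (hPP : ∀ p ∈ PP, Nat.Prime p) {S1 V : ℝ} (hV : 0 < V)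
    (hN : ∀ t : ℝ, 1 ≤ t → t ≤ S1 → V * log t ≤ ∑ S ∈ PP.powerset with pro S ≤ t, 1 / fi S)
    {J : ℕ} (hJ : (2 : ℝ) ^ J ≤ V * log S1) (hS1 : 1 ≤ S1) :
    V * ((J : ℝ) - 1) / 2 ≤ H1 PP S1 := by
  set T : ℕ → ℝ := fun j => exp (2 ^ j / V) with hT
  have hTle : ∀ j ∈ Icc 1 J, T j ≤ S1 := by
    intro j hj
    have h1 : (2 : ℝ) ^ j ≤ 2 ^ J := pow_le_pow_right₀ (by norm_num) (mem_Icc.1 hj).2
    have h2 : (2 : ℝ) ^ j / V ≤ log S1 := by
      rw [div_le_iff₀ hV]
      calc (2 : ℝ) ^ j ≤ 2 ^ J := h1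
        _ ≤ V * log S1 := hJ
        _ = log S1 * V := mul_comm _ _
    calc T j ≤ exp (log S1) := exp_le_exp.2 h2
      _ = S1 := exp_log (by linarith)
  have hT1 : ∀ j, 1 ≤ T j := fun j => by
    rw [hT]
    exact one_le_exp (by positivity)
  -- one set
  have hone : ∀ S ∈ PP.powerset.filter (fun S => S.Nonempty ∧ pro S ≤ S1),
      (1 / fi S) * (1 / 2 * ∑ j ∈ Icc 1 J, if pro S ≤ T j then V / 2 ^ j else 0) ≤
        1 / (fi S * log (pro S)) := by
    intro S hS
    obtain ⟨hS1', hS2, hS3⟩ := mem_filter.1 hS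
    have hSp : ∀ p ∈ S, Nat.Prime p := fun p hp => hPP p (mem_powerset.1 hS1' hp)
    have hf := fi_pos hSp
    have hl := log_pro_pos hSp hS2
    have h1 : 1 / 2 * (∑ j ∈ Icc 1 J, if pro S ≤ T j then V / 2 ^ j else 0) ≤
        1 / log (pro S) := by
      by_cases hex : ∃ j ∈ Icc 1 J, pro S ≤ T j
      · -- the least one
        have hex' : ∃ j, j ∈ Icc 1 J ∧ pro S ≤ T j := by
          obtain ⟨j, hj, hj'⟩ := hex
          exact ⟨j, hj, hj'⟩
        set j0 := Nat.find hex' with hj0
        obtain ⟨hj1, hj2⟩ := Nat.find_spec hex'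
        have hlog : log (pro S) ≤ 2 ^ j0 / V := by
          have h3 := log_le_log (pro_pos hSp) hj2
          have h4 : log (T (Nat.find hex')) = 2 ^ j0 / V := by
            show log (exp _) = _
            rw [log_exp]
          rw [h4] at h3
          exact h3
        have hsum : (∑ j ∈ Icc 1 J, if pro S ≤ T j then V / 2 ^ j else 0) ≤
            ∑ j ∈ Ico j0 (J + 1), V / 2 ^ j := by
          rw [← sum_filter]
          refine sum_le_sum_of_subset_of_nonneg ?_ fun j _ _ => by positivity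
          intro j hj
          obtain ⟨h3, h4⟩ := mem_filter.1 hj
          rw [mem_Ico]
          refine ⟨Nat.find_min' hex' ⟨h3, h4⟩, ?_⟩
          have := (mem_Icc.1 h3).2
          omega
        have hgeo : ∀ n : ℕ, ∑ j ∈ Ico j0 (j0 + n), V / 2 ^ j ≤ 2 * (V / 2 ^ j0) - V / 2 ^ j0 * (2 / 2 ^ n) := by
          intro n
          induction n with
          | zero => simp; ring_nf; exact le_refl _
          | succ n ih =>
            rw [← add_assoc, sum_Ico_succ_top (by omega)]
            have h5 : V / 2 ^ (j0 + n) = V / 2 ^ j0 * (1 / 2 ^ n) := by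
              rw [pow_add]; field_simp
            have h6 : V / 2 ^ j0 * (2 / 2 ^ (n + 1)) = V / 2 ^ j0 * (1 / 2 ^ n) := by
              rw [pow_succ]; field_simp
            rw [h5, h6]
            have h7 : V / 2 ^ j0 * (2 / 2 ^ n) = 2 * (V / 2 ^ j0 * (1 / 2 ^ n)) := by ring
            rw [h7] at ih
            linarith
        have hle : j0 ≤ J := (mem_Icc.1 hj1).2
        obtain ⟨n, hn⟩ := Nat.exists_eq_add_of_le (show j0 ≤ J + 1 by omega)
        have h8 := hgeo n
        rw [← hn] at h8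
        have h9 : 0 ≤ V / 2 ^ j0 * (2 / 2 ^ n) := by positivity
        have h10 : (∑ j ∈ Icc 1 J, if pro S ≤ T j then V / 2 ^ j else 0) ≤ 2 * (V / 2 ^ j0) := by
          linarith
        have h11 : V / 2 ^ j0 ≤ 1 / log (pro S) := by
          rw [div_le_div_iff₀ (by positivity) hl]
          rw [le_div_iff₀ hV] at hlog
          linarith
        linarith
      · have h2 : (∑ j ∈ Icc 1 J, if pro S ≤ T j then V / 2 ^ j else 0) = 0 := by
          refine sum_eq_zero fun j hj => ?_
          rw [if_neg]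
          intro h3
          exact hex ⟨j, hj, h3⟩
        rw [h2]
        have : 0 < 1 / log (pro S) := by positivity
        linarith
    calc (1 / fi S) * (1 / 2 * ∑ j ∈ Icc 1 J, if pro S ≤ T j then V / 2 ^ j else 0)
        ≤ (1 / fi S) * (1 / log (pro S)) := mul_le_mul_of_nonneg_left h1 (by positivity)
      _ = 1 / (fi S * log (pro S)) := by rw [div_mul_div_comm, one_mul]
  have h1 : ∑ S ∈ PP.powerset.filter (fun S => S.Nonempty ∧ pro S ≤ S1),
      (1 / fi S) * (1 / 2 * ∑ j ∈ Icc 1 J, if pro S ≤ T j then V / 2 ^ j else 0) ≤ H1 PP S1 :=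
    sum_le_sum hone
  refine le_trans ?_ h1
  have h2 : ∑ S ∈ PP.powerset.filter (fun S => S.Nonempty ∧ pro S ≤ S1),
      (1 / fi S) * (1 / 2 * ∑ j ∈ Icc 1 J, if pro S ≤ T j then V / 2 ^ j else 0) =
      ∑ j ∈ Icc 1 J, 1 / 2 * (V / 2 ^ j) *
        ∑ S ∈ PP.powerset.filter (fun S => S.Nonempty ∧ pro S ≤ S1),
          (if pro S ≤ T j then 1 / fi S else 0) := by
    simp_rw [mul_sum]
    rw [sum_comm]
    refine sum_congr rfl fun j _ => sum_congr rfl fun S _ => ?_
    split_ifs
    · ring
    · simp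
  rw [h2]
  have h3 : ∀ j ∈ Icc 1 J, 1 / 2 * V * (1 - 1 / 2 ^ j) ≤ 1 / 2 * (V / 2 ^ j) *
        ∑ S ∈ PP.powerset.filter (fun S => S.Nonempty ∧ pro S ≤ S1),
          (if pro S ≤ T j then 1 / fi S else 0) := by
    intro j hj
    have h4 : ∑ S ∈ PP.powerset.filter (fun S => S.Nonempty ∧ pro S ≤ S1),
          (if pro S ≤ T j then 1 / fi S else 0) =
        ∑ S ∈ PP.powerset with pro S ≤ T j, 1 / fi S - 1 := by
      rw [← sum_filter, filter_filter]
      have h5 : PP.powerset.filter (fun S => pro S ≤ T j) =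
          insert ∅ (PP.powerset.filter (fun S => (S.Nonempty ∧ pro S ≤ S1) ∧ pro S ≤ T j)) := by
        ext S
        simp only [mem_filter, mem_insert, mem_powerset]
        constructor
        · rintro ⟨h6, h7⟩
          rcases S.eq_empty_or_nonempty with h8 | h8
          · exact Or.inl h8
          · exact Or.inr ⟨h6, ⟨h8, h7.trans (hTle j hj)⟩, h7⟩
        · rintro (h6 | ⟨h6, _, h7⟩)
          · rw [h6, pro_empty]
            exact ⟨empty_subset _, hT1 j⟩
          · exact ⟨h6, h7⟩
      rw [h5, sum_insert (by simp), fi_empty]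
      ring
    rw [h4]
    have h5 := hN (T j) (hT1 j) (hTle j hj)
    have h6 : V * log (T j) = 2 ^ j := by
      rw [hT]
      simp only [log_exp]
      field_simp
    rw [h6] at h5
    have h7 : 1 / 2 * V * (1 - 1 / 2 ^ j) = 1 / 2 * (V / 2 ^ j) * (2 ^ j - 1) := by
      field_simp
    rw [h7]
    exact mul_le_mul_of_nonneg_left (by linarith) (by positivity)
  refine le_trans ?_ (sum_le_sum h3)
  rw [← mul_sum, sum_sub_distrib]
  have h4 : ∀ n : ℕ, ∑ j ∈ Icc 1 n, (1 : ℝ) / 2 ^ j = 1 - 1 / 2 ^ n := by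
    intro n
    induction n with
    | zero => simp
    | succ n ih =>
      rw [sum_Icc_succ_top (by omega), ih, pow_succ]
      field_simp
      ring
  rw [h4]
  simp only [sum_const, Nat.card_Icc, nsmul_eq_mul, mul_one, Nat.add_sub_cancel]
  have h5 : (0 : ℝ) ≤ 1 / 2 ^ J := by positivity
  have h6 : 1 / 2 * V * ((J : ℝ) - (1 - 1 / 2 ^ J)) = V * ((J : ℝ) - 1) / 2 + 1 / 2 * V * (1 / 2 ^ J) := by
    ring
  rw [h6]
  have : 0 ≤ 1 / 2 * V * (1 / 2 ^ J) := by positivity
  linarith

section weights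

variable {PP : Finset ℕ} {S1 : ℝ}

theorem y_empty : y PP S1 ∅ = 1 := by simp [y]

open Classical in
theorem y_nonempty {S : Finset ℕ} (hS : S.Nonempty) :
    y PP S1 S = if pro S ≤ S1 then -(c0 PP S1 / log (pro S)) else 0 := by
  rw [y, if_neg hS.ne_empty]

theorem y_of_lt {S : Finset ℕ} (hS : S.Nonempty) (h : S1 < pro S) : y PP S1 S = 0 := by
  classical
  rw [y_nonempty hS, if_neg (not_le.2 h)]

theorem c0_nonneg (hH : 0 ≤ H1 PP S1) : 0 ≤ c0 PP S1 := by
  rw [c0]; positivity

theorem y_nonpos (hH : 0 ≤ H1 PP S1) {S : Finset ℕ} (hSp : ∀ p ∈ S, Nat.Prime p)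
    (hS : S.Nonempty) : y PP S1 S ≤ 0 := by
  classical
  rw [y_nonempty hS]
  split_ifs
  · have h1 := log_pro_pos hSp hS
    have h2 := c0_nonneg hH
    have : 0 ≤ c0 PP S1 / log (pro S) := by positivity
    linarith
  · exact le_refl _

open Classical in
/-- the weights have mean zero -/
theorem sum_y (hH : 0 < H1 PP S1) :
    ∑ S ∈ PP.powerset, y PP S1 S / fi S = 0 := by
  rw [← sum_filter_add_sum_filter_not PP.powerset (fun S => S = ∅)]
  have h1 : PP.powerset.filter (fun S => S = ∅) = {∅} := by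
    ext S
    simp only [mem_filter, mem_powerset, mem_singleton]
    exact ⟨fun h => h.2, fun h => ⟨h ▸ empty_subset _, h⟩⟩
  rw [h1, sum_singleton, y_empty, fi_empty]
  have h2 : ∑ S ∈ PP.powerset with ¬ S = ∅, y PP S1 S / fi S = -(c0 PP S1 * H1 PP S1) := by
    rw [H1, mul_sum, ← sum_neg_distrib]
    have h3 : (PP.powerset.filter (fun S => S.Nonempty ∧ pro S ≤ S1)) =
        (PP.powerset.filter (fun S => ¬ S = ∅)).filter (fun S => pro S ≤ S1) := by
      rw [filter_filter]
      refine filter_congr fun S _ => ?_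
      rw [nonempty_iff_ne_empty]
    rw [h3, sum_filter (fun S => pro S ≤ S1)]
    refine sum_congr rfl fun S hS => ?_
    have hS1 := (mem_filter.1 hS).2
    rw [y_nonempty (nonempty_iff_ne_empty.2 hS1)]
    split_ifs
    · rw [neg_div, div_div, mul_one_div, mul_comm (log (pro S))]
    · simp
  rw [h2, c0, one_div_mul_cancel hH.ne']
  simp

open Classical in
/-- sum over the nonempty sets of the absolute values -/
theorem sum_abs_y (hH : 0 < H1 PP S1) :
    ∑ S ∈ PP.powerset with S.Nonempty, -(y PP S1 S) / fi S = 1 := by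
  have h1 := sum_y hH
  rw [← sum_filter_add_sum_filter_not PP.powerset (fun S => S.Nonempty)] at h1
  have h2 : PP.powerset.filter (fun S => ¬ S.Nonempty) = {∅} := by
    ext S
    simp only [mem_filter, mem_powerset, mem_singleton, not_nonempty_iff_eq_empty]
    exact ⟨fun h => h.2, fun h => ⟨h ▸ empty_subset _, h⟩⟩
  rw [h2, sum_singleton, y_empty, fi_empty] at h1
  simp_rw [neg_div]
  rw [sum_neg_distrib]
  linarith

/-- `cU` is nonnegative -/
theorem cU_nonneg (hPP : ∀ p ∈ PP, Nat.Prime p) (hH : 0 < H1 PP S1) {D : ℝ} {U : Finset ℕ}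
    (hU : ∀ p ∈ U, Nat.Prime p) : 0 ≤ cU PP S1 D U := by
  classical
  rw [cU]
  by_cases hD : pro U ≤ D
  · have hmem : ∅ ∈ PP.powerset.filter (fun S => Disjoint S U ∧ pro S * pro U ≤ D) := by
      refine mem_filter.2 ⟨empty_mem_powerset _, disjoint_empty_left _, ?_⟩
      rw [pro_empty, one_mul]; exact hD
    rw [← add_sum_erase _ _ hmem, y_empty, fi_empty]
    have h1 := sum_abs_y hH
    have h2 : ∑ S ∈ (PP.powerset.filter (fun S => Disjoint S U ∧ pro S * pro U ≤ D)).erase ∅,
        -(y PP S1 S) / fi S ≤ ∑ S ∈ PP.powerset with S.Nonempty, -(y PP S1 S) / fi S := by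
      refine sum_le_sum_of_subset_of_nonneg ?_ ?_
      · intro S hS
        obtain ⟨h3, h4⟩ := mem_erase.1 hS
        exact mem_filter.2 ⟨(mem_filter.1 h4).1, nonempty_iff_ne_empty.2 h3⟩
      · intro S hS _
        obtain ⟨h3, h4⟩ := mem_filter.1 hS
        have hSp : ∀ p ∈ S, Nat.Prime p := fun p hp => hPP p (mem_powerset.1 h3 hp)
        have h5 := y_nonpos hH.le hSp h4
        have h6 := fi_pos hSp
        exact div_nonneg (by linarith) h6.le
    rw [h1] at h2
    simp_rw [neg_div] at h2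
    rw [sum_neg_distrib] at h2
    simp only [div_one]
    linarith
  · have h1 : PP.powerset.filter (fun S => Disjoint S U ∧ pro S * pro U ≤ D) = ∅ := by
      refine filter_eq_empty_iff.2 fun S hS h => hD ?_
      have hSp : ∀ p ∈ S, Nat.Prime p := fun p hp => hPP p (mem_powerset.1 hS hp)
      have h2 := one_le_pro hSp
      have h3 := pro_pos hU
      nlinarith [h.2]
    rw [h1, sum_empty]

/-- `cU` is at most one -/
theorem cU_le_one (hPP : ∀ p ∈ PP, Nat.Prime p) (hH : 0 ≤ H1 PP S1) {D : ℝ} {U : Finset ℕ} :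
    cU PP S1 D U ≤ 1 := by
  classical
  rw [cU]
  calc _ ≤ ∑ S ∈ PP.powerset with Disjoint S U ∧ pro S * pro U ≤ D, if S = ∅ then (1 : ℝ) else 0 := by
        refine sum_le_sum fun S hS => ?_
        have hSp : ∀ p ∈ S, Nat.Prime p := fun p hp =>
          hPP p (mem_powerset.1 (mem_filter.1 hS).1 hp)
        split_ifs with h
        · rw [h, y_empty, fi_empty]; simp
        · have h1 := y_nonpos hH hSp (nonempty_iff_ne_empty.2 h)
          exact div_nonpos_of_nonpos_of_nonneg h1 (fi_pos hSp).le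
    _ ≤ 1 := by
        rw [sum_ite_eq']
        split_ifs <;> norm_num

/-- the weight of `insert p S` -/
theorem neg_y_insert_le (hH : 0 ≤ H1 PP S1) {S : Finset ℕ} (hSp : ∀ q ∈ S, Nat.Prime q)
    (hS : S.Nonempty) {p : ℕ} (hp : Nat.Prime p) (hpS : p ∉ S) :
    -(y PP S1 (insert p S)) ≤ -(y PP S1 S) := by
  classical
  have hpr : pro (insert p S) = p * pro S := by rw [pro, prod_insert hpS]; rfl
  have h2 : (2 : ℝ) ≤ p := by exact_mod_cast hp.two_le
  have h3 := pro_pos hSp
  have h4 : pro S ≤ pro (insert p S) := by rw [hpr]; nlinarith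
  have h5 := log_pro_pos hSp hS
  have h6 : log (pro S) ≤ log (pro (insert p S)) := log_le_log h3 h4
  have h7 := c0_nonneg hH
  rw [y_nonempty (insert_nonempty _ _), y_nonempty hS]
  split_ifs with h8 h9 h9
  · simp only [neg_neg]
    exact div_le_div_of_nonneg_left h7 h5 h6
  · exact absurd (h4.trans h8) h9
  · simp only [neg_neg, neg_zero]
    positivity
  · exact le_refl _

open Classical in
/-- sum over the sets which contain `p` -/
theorem sum_mem_le (hPP : ∀ p ∈ PP, Nat.Prime p) (hH : 0 < H1 PP S1) {p : ℕ} (hp : p ∈ PP)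
    (hlog : 1 ≤ log p) :
    ∑ S ∈ PP.powerset with p ∈ S, -(y PP S1 S) / fi S ≤ (c0 PP S1 + 1) / ((p : ℝ) - 1) := by
  have hpp := hPP p hp
  have h2 : (2 : ℝ) ≤ p := by exact_mod_cast hpp.two_le
  have hc := c0_nonneg hH.le
  have h1 : PP.powerset.filter (fun S => p ∈ S) = ((PP.erase p).powerset).image (insert p) := by
    ext S
    simp only [mem_filter, mem_powerset, mem_image]
    constructor
    · rintro ⟨h3, h4⟩
      exact ⟨S.erase p, erase_subset_erase _ h3, insert_erase h4⟩
    · rintro ⟨T, h3, rfl⟩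
      exact ⟨insert_subset hp (h3.trans (erase_subset _ _)), mem_insert_self _ _⟩
  have hinj : Set.InjOn (insert p) ((PP.erase p).powerset : Set (Finset ℕ)) := by
    intro A hA B hB hAB
    have hA' : p ∉ A := fun h => (notMem_erase p PP) (mem_powerset.1 hA h)
    have hB' : p ∉ B := fun h => (notMem_erase p PP) (mem_powerset.1 hB h)
    rw [← erase_insert hA', ← erase_insert hB', hAB]
  rw [h1, sum_image hinj]
  have h3 : ∀ S ∈ (PP.erase p).powerset, -(y PP S1 (insert p S)) / fi (insert p S) ≤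
      (1 / ((p : ℝ) - 1)) * ((if S = ∅ then c0 PP S1 else 0) +
        (if S.Nonempty then -(y PP S1 S) / fi S else 0)) := by
    intro S hS
    have hS' : p ∉ S := fun h => (notMem_erase p PP) (mem_powerset.1 hS h)
    have hSp : ∀ q ∈ S, Nat.Prime q := fun q hq =>
      hPP q (mem_of_mem_erase (mem_powerset.1 hS hq))
    have hfi : fi (insert p S) = ((p : ℝ) - 1) * fi S := by rw [fi, prod_insert hS']; rfl
    have hp1 : (0 : ℝ) < (p : ℝ) - 1 := by linarith
    have hfS := fi_pos hSp
    rcases S.eq_empty_or_nonempty with h4 | h4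
    · subst h4
      simp only [insert_empty_eq, Finset.not_nonempty_empty, if_true, if_false, add_zero]
      have hf1 : fi {p} = (p : ℝ) - 1 := by simp [fi]
      have hpr : pro {p} = (p : ℝ) := by simp [pro]
      rw [hf1, y_nonempty (singleton_nonempty p), hpr, one_div, ← div_eq_inv_mul]
      refine div_le_div_of_nonneg_right ?_ hp1.le
      split_ifs
      · simp only [neg_neg]
        exact div_le_self hc hlog
      · simpa using hc
    · rw [if_neg h4.ne_empty, if_pos h4, zero_add, hfi, one_div, ← div_eq_inv_mul, div_div,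
        mul_comm (fi S)]
      exact div_le_div_of_nonneg_right (neg_y_insert_le hH.le hSp h4 hpp hS') (by positivity)
  refine (sum_le_sum h3).trans ?_
  rw [← mul_sum, sum_add_distrib, sum_ite_eq', if_pos (empty_mem_powerset _), ← sum_filter]
  have h4 : ∑ S ∈ (PP.erase p).powerset with S.Nonempty, -(y PP S1 S) / fi S ≤ 1 := by
    rw [← sum_abs_y hH]
    refine sum_le_sum_of_subset_of_nonneg ?_ ?_
    · intro S hS
      obtain ⟨h5, h6⟩ := mem_filter.1 hS
      exact mem_filter.2 ⟨mem_powerset.2 ((mem_powerset.1 h5).trans (erase_subset _ _)), h6⟩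
    · intro S hS _
      obtain ⟨h5, h6⟩ := mem_filter.1 hS
      have hSp : ∀ p ∈ S, Nat.Prime p := fun p hp => hPP p (mem_powerset.1 h5 hp)
      have h7 := y_nonpos hH.le hSp h6
      exact div_nonneg (by linarith) (fi_pos hSp).le
  have hp1 : (0 : ℝ) < (p : ℝ) - 1 := by linarith
  rw [one_div, ← div_eq_inv_mul]
  exact div_le_div_of_nonneg_right (by linarith) hp1.le

/-- the main bound for `cU` -/
theorem cU_le (hPP : ∀ p ∈ PP, Nat.Prime p) (hH : 0 < H1 PP S1) {D w : ℝ} {U : Finset ℕ}
    (hU : U ⊆ PP) (hD : S1 * pro U ≤ D) (hS1 : 1 ≤ S1) (hw : 0 < w)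
    (hwP : ∀ p ∈ PP, w ≤ (p : ℝ) - 1 ∧ 1 ≤ log p) :
    cU PP S1 D U ≤ U.card * ((c0 PP S1 + 1) / w) := by
  classical
  have hUp : ∀ p ∈ U, Nat.Prime p := fun p hp => hPP p (hU hp)
  have hc := c0_nonneg hH.le
  have h1 : cU PP S1 D U = ∑ S ∈ PP.powerset with Disjoint S U, y PP S1 S / fi S := by
    rw [cU]
    rw [sum_filter, sum_filter]
    refine sum_congr rfl fun S hS => ?_
    have hSp : ∀ p ∈ S, Nat.Prime p := fun p hp => hPP p (mem_powerset.1 hS hp)
    by_cases h2 : Disjoint S U
    · rw [if_pos h2]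
      by_cases h3 : pro S * pro U ≤ D
      · rw [if_pos ⟨h2, h3⟩]
      · rw [if_neg (fun h => h3 h.2)]
        rcases S.eq_empty_or_nonempty with h4 | h4
        · exfalso
          rw [h4, pro_empty, one_mul] at h3
          have := pro_pos hUp
          nlinarith
        · rw [y_of_lt h4, zero_div]
          by_contra h5
          rw [not_lt] at h5
          have := pro_pos hUp
          exact h3 ((mul_le_mul_of_nonneg_right h5 this.le).trans hD)
    · rw [if_neg h2, if_neg (fun h => h2 h.1)]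
  rw [h1]
  have h2 := sum_y (S1 := S1) hH
  rw [← sum_filter_add_sum_filter_not PP.powerset (fun S => Disjoint S U)] at h2
  have h3 : ∑ S ∈ PP.powerset with Disjoint S U, y PP S1 S / fi S =
      ∑ S ∈ PP.powerset with ¬ Disjoint S U, -(y PP S1 S) / fi S := by
    simp_rw [neg_div]
    rw [sum_neg_distrib]
    linarith
  rw [h3]
  have h4 : ∑ S ∈ PP.powerset with ¬ Disjoint S U, -(y PP S1 S) / fi S ≤
      ∑ S ∈ PP.powerset, ∑ p ∈ U, if p ∈ S then -(y PP S1 S) / fi S else 0 := by
    rw [sum_filter]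
    refine sum_le_sum fun S hS => ?_
    have hSp : ∀ p ∈ S, Nat.Prime p := fun p hp => hPP p (mem_powerset.1 hS hp)
    have hfS := fi_pos hSp
    by_cases h5 : ¬ Disjoint S U
    · rw [if_pos h5]
      obtain ⟨p, hpS, hpU⟩ := not_disjoint_iff.1 h5
      have h6 := y_nonpos hH.le hSp ⟨p, hpS⟩
      have h7 : 0 ≤ -(y PP S1 S) / fi S := div_nonneg (by linarith) hfS.le
      calc -(y PP S1 S) / fi S = if p ∈ S then -(y PP S1 S) / fi S else 0 := by rw [if_pos hpS]
        _ ≤ _ := single_le_sum (f := fun p => if p ∈ S then -(y PP S1 S) / fi S else 0)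
            (fun q _ => by split_ifs; exacts [h7, le_refl _]) hpU
    · rw [if_neg h5]
      refine sum_nonneg fun p _ => ?_
      split_ifs with h6
      · have h7 := y_nonpos hH.le hSp ⟨p, h6⟩
        exact div_nonneg (by linarith) hfS.le
      · exact le_refl _
  refine h4.trans ?_
  rw [sum_comm]
  have h5 : ∀ p ∈ U, ∑ S ∈ PP.powerset, (if p ∈ S then -(y PP S1 S) / fi S else 0) ≤
      (c0 PP S1 + 1) / w := by
    intro p hp
    rw [← sum_filter]
    refine (sum_mem_le hPP hH (hU hp) (hwP p (hU hp)).2).trans ?_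
    exact div_le_div_of_nonneg_left (by linarith) hw (hwP p (hU hp)).1
  calc _ ≤ ∑ p ∈ U, (c0 PP S1 + 1) / w := sum_le_sum h5
    _ = U.card * ((c0 PP S1 + 1) / w) := by rw [sum_const, nsmul_eq_mul]

open Classical in
/-- the exponential moment of one component -/
theorem theta_le (hPP : ∀ p ∈ PP, Nat.Prime p) (hH : 0 < H1 PP S1) {lam : ℝ} (hl : 0 ≤ lam)
    (hl1 : lam * log S1 ≤ 1) :
    ∑ S ∈ PP.powerset with S.Nonempty, y PP S1 S ^ 2 / fi S * (pro S ^ lam - 1) ≤
      2 * lam * c0 PP S1 := by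
  have hc := c0_nonneg hH.le
  have h1 : ∀ S ∈ PP.powerset.filter (fun S => S.Nonempty),
      y PP S1 S ^ 2 / fi S * (pro S ^ lam - 1) ≤
        if pro S ≤ S1 then 2 * lam * c0 PP S1 ^ 2 * (1 / (fi S * log (pro S))) else 0 := by
    intro S hS
    obtain ⟨h2, h3⟩ := mem_filter.1 hS
    have hSp : ∀ p ∈ S, Nat.Prime p := fun p hp => hPP p (mem_powerset.1 h2 hp)
    have hfS := fi_pos hSp
    have hlS := log_pro_pos hSp h3
    have hpS := pro_pos hSp
    rw [y_nonempty h3]
    split_ifs with h4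
    · have h5 : pro S ^ lam - 1 ≤ 2 * (lam * log (pro S)) := by
        have h6 : pro S ^ lam = exp (lam * log (pro S)) := by
          rw [rpow_def_of_pos hpS, mul_comm]
        have h7 : lam * log (pro S) ≤ 1 :=
          (mul_le_mul_of_nonneg_left (log_le_log hpS h4) hl).trans hl1
        have h8 : 0 ≤ lam * log (pro S) := by positivity
        have h9 : |exp (lam * log (pro S)) - 1| ≤ 2 * |lam * log (pro S)| :=
          abs_exp_sub_one_le (by rw [abs_of_nonneg h8]; exact h7)
        rw [abs_of_nonneg h8] at h9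
        rw [h6]
        exact (le_abs_self _).trans h9
      have h6 : (-(c0 PP S1 / log (pro S))) ^ 2 / fi S * (pro S ^ lam - 1) ≤
          (-(c0 PP S1 / log (pro S))) ^ 2 / fi S * (2 * (lam * log (pro S))) :=
        mul_le_mul_of_nonneg_left h5 (by positivity)
      refine h6.trans (le_of_eq ?_)
      field_simp
    · simp
  refine (sum_le_sum h1).trans (le_of_eq ?_)
  rw [← sum_filter, filter_filter, ← mul_sum]
  have h2 : ∑ S ∈ PP.powerset with S.Nonempty ∧ pro S ≤ S1, 1 / (fi S * log (pro S)) =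
      H1 PP S1 := rfl
  rw [h2, c0]
  field_simp

/-- the weights are at most one in absolute value -/
theorem abs_y_le_one (hPP : ∀ p ∈ PP, Nat.Prime p) (hH : 0 < H1 PP S1)
    (hc : ∀ p ∈ PP, c0 PP S1 ≤ log p) {S : Finset ℕ} (hS : S ⊆ PP) : |y PP S1 S| ≤ 1 := by
  classical
  rcases S.eq_empty_or_nonempty with h | h
  · rw [h, y_empty]; simp
  · have hSp : ∀ p ∈ S, Nat.Prime p := fun p hp => hPP p (hS hp)
    have hc0 := c0_nonneg hH.le
    have hl := log_pro_pos hSp h
    rw [y_nonempty h]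
    split_ifs
    · rw [abs_neg, abs_of_nonneg (by positivity), div_le_one hl]
      obtain ⟨p, hp⟩ := h
      refine (hc p (hS hp)).trans (log_le_log ?_ (le_pro hSp hp))
      exact_mod_cast (hSp p hp).pos
    · simp

end weights

end Pool.Agent.RW
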